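import Pool.Agent.MP_2ab689_gt.Fam.En.Par

/-!
Runs of the enumeration of triangulations.
-/

namespace Pool.Agent.MP_2ab689_gt.Fam.En

set_option maxRecDepth 100000

/-- Hints for the leaves. -/
def hs11x2 : List (ℕ × Bool × ℕ) :=
  [(1, false, 11584701642934304), (1, false, 109987913439561), (1, false, 73806000690505), (2,
  false, 11584701642934304), (2, true, 11581369922652256), (2, true, 11550548129088576), (2,
  false, 11548382458872960), (1, false, 11512068475752544), (2, false, 11512068475752544), (2,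
  true, 11514400575950880), (2, true, 9122890645837861), (2, false, 10247796265554982), (1,
  false, 11475920922741824), (2, true, 11478086592826496), (2, false, 11475920922741824), (1,
  false, 11584701641852032), (2, false, 9085577040439429), (2, true, 11405546575044679)]

theorem run11x2_0 : chkP 11 (fac 11 :: others 11) [0, 3, 6, 2, 0] 4 [(4, 3), (5, 6), (6, 2)] hs11x2
    9 6 0 = true := by
  decide +kernel

theorem run11x2_1 : chkP 11 (fac 11 :: others 11) [0, 3, 6, 2, 0] 4 [(4, 3), (5, 6), (6, 2)] hs11x2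
    9 6 1 = true := by
  decide +kernel

theorem run11x2_2 : chkP 11 (fac 11 :: others 11) [0, 3, 6, 2, 0] 4 [(4, 3), (5, 6), (6, 2)] hs11x2
    9 6 2 = true := by
  decide +kernel

theorem run11x2_3 : chkP 11 (fac 11 :: others 11) [0, 3, 6, 2, 0] 4 [(4, 3), (5, 6), (6, 2)] hs11x2
    9 6 3 = true := by
  decide +kernel

theorem run11x2_4 : chkP 11 (fac 11 :: others 11) [0, 3, 6, 2, 0] 4 [(4, 3), (5, 6), (6, 2)] hs11x2
    9 6 4 = true := by
  decide +kernel

theorem run11x2_5 : chkP 11 (fac 11 :: others 11) [0, 3, 6, 2, 0] 4 [(4, 3), (5, 6), (6, 2)] hs11x2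
    9 6 5 = true := by
  decide +kernel

theorem run11x2 : chkS 11 (fac 11 :: others 11) [0, 3, 6, 2, 0] 4 [(4, 3), (5, 6), (6, 2)] hs11x2 = true :=
  chkS_of (d := 9) (n := 6) (by decide +kernel) fun i hi => by
    interval_cases i
    exacts [run11x2_0, run11x2_1, run11x2_2, run11x2_3, run11x2_4, run11x2_5]

/-- Hints for the leaves. -/
def hs15x0 : List (ℕ × Bool × ℕ) :=
  [(0, false, 16946122481178240026656), (0, false, 15620294348716259741792), (0, false,
  15803607705729691061312)]

theorem run15x0_0 : chkP 15 (fac 15 :: others 15) [0, 0, 12, 3, 0] 6 [(5, 12), (6, 3)] hs15x0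
    9 3 0 = true := by
  decide +kernel

theorem run15x0_1 : chkP 15 (fac 15 :: others 15) [0, 0, 12, 3, 0] 6 [(5, 12), (6, 3)] hs15x0
    9 3 1 = true := by
  decide +kernel

theorem run15x0_2 : chkP 15 (fac 15 :: others 15) [0, 0, 12, 3, 0] 6 [(5, 12), (6, 3)] hs15x0
    9 3 2 = true := by
  decide +kernel

theorem run15x0 : chkS 15 (fac 15 :: others 15) [0, 0, 12, 3, 0] 6 [(5, 12), (6, 3)] hs15x0 = true :=
  chkS_of (d := 9) (n := 3) (by decide +kernel) fun i hi => by
    interval_cases i
    exacts [run15x0_0, run15x0_1, run15x0_2]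

theorem run15x1 : chkS 15 (fac 15 :: others 15) [0, 0, 13, 1, 1] 6 [(5, 13), (6, 1), (7, 1)] [] =
    true := by
  decide +kernel

end Pool.Agent.MP_2ab689_gt.Fam.En
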