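import Pool.Agent.MP_2ab689_gt.Fam.En.Par

/-!
Runs of the enumeration of triangulations.
-/

namespace Pool.Agent.MP_2ab689_gt.Fam.En

set_option maxRecDepth 100000

/-- Hints for the leaves. -/
def hs13x3 : List (ℕ × Bool × ℕ) :=
  [(1, false, 14242959524133701664), (2, false, 14242959524133701664), (1, true,
  11939364983013410912), (1, true, 14208022473507734592), (1, false, 14242923204949640320), (2,
  false, 14242923204949640320), (2, false, 2307187819488224588), (3, false,
  14242959524133701664), (3, true, 13123817147102004288), (1, false, 13056188389154394208), (2,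
  false, 13056188389154394208), (1, true, 14207986325954596896), (3, true,
  14239547841589645344), (2, false, 1157607695452447020), (3, false, 14241797305076352128), (2,
  false, 11974162431125621824), (1, true, 13125960201495710848), (1, false,
  13056152241601383488), (3, true, 13125923882315843680), (2, false, 3461307822976079051), (3,
  false, 13121424749384305728), (3, true, 14238385628773420160), (2, false,
  4615421096247893260), (3, false, 14240635092260130912)]

theorem run13x3_0 : chkP 13 (fac 13 :: others 13) [0, 2, 8, 3, 0] 4 [(4, 2), (5, 8), (6, 3)] hs13x3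
    9 10 0 = true := by
  decide +kernel

theorem run13x3_1 : chkP 13 (fac 13 :: others 13) [0, 2, 8, 3, 0] 4 [(4, 2), (5, 8), (6, 3)] hs13x3
    9 10 1 = true := by
  decide +kernel

theorem run13x3_2 : chkP 13 (fac 13 :: others 13) [0, 2, 8, 3, 0] 4 [(4, 2), (5, 8), (6, 3)] hs13x3
    9 10 2 = true := by
  decide +kernel

theorem run13x3_3 : chkP 13 (fac 13 :: others 13) [0, 2, 8, 3, 0] 4 [(4, 2), (5, 8), (6, 3)] hs13x3
    9 10 3 = true := by
  decide +kernel

theorem run13x3_4 : chkP 13 (fac 13 :: others 13) [0, 2, 8, 3, 0] 4 [(4, 2), (5, 8), (6, 3)] hs13x3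
    9 10 4 = true := by
  decide +kernel

theorem run13x3_5 : chkP 13 (fac 13 :: others 13) [0, 2, 8, 3, 0] 4 [(4, 2), (5, 8), (6, 3)] hs13x3
    9 10 5 = true := by
  decide +kernel

theorem run13x3_6 : chkP 13 (fac 13 :: others 13) [0, 2, 8, 3, 0] 4 [(4, 2), (5, 8), (6, 3)] hs13x3
    9 10 6 = true := by
  decide +kernel

theorem run13x3_7 : chkP 13 (fac 13 :: others 13) [0, 2, 8, 3, 0] 4 [(4, 2), (5, 8), (6, 3)] hs13x3
    9 10 7 = true := by
  decide +kernel

theorem run13x3_8 : chkP 13 (fac 13 :: others 13) [0, 2, 8, 3, 0] 4 [(4, 2), (5, 8), (6, 3)] hs13x3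
    9 10 8 = true := by
  decide +kernel

theorem run13x3_9 : chkP 13 (fac 13 :: others 13) [0, 2, 8, 3, 0] 4 [(4, 2), (5, 8), (6, 3)] hs13x3
    9 10 9 = true := by
  decide +kernel

theorem run13x3 : chkS 13 (fac 13 :: others 13) [0, 2, 8, 3, 0] 4 [(4, 2), (5, 8), (6, 3)] hs13x3 = true :=
  chkS_of (d := 9) (n := 10) (by decide +kernel) fun i hi => by
    interval_cases i
    exacts [run13x3_0, run13x3_1, run13x3_2, run13x3_3, run13x3_4, run13x3_5, run13x3_6, run13x3_7, run13x3_8, run13x3_9]

end Pool.Agent.MP_2ab689_gt.Fam.En
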