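import Pool.Agent.MP_2ab689_gt.Fam.En.Par

/-!
Runs of the enumeration of triangulations.
-/

namespace Pool.Agent.MP_2ab689_gt.Fam.En

set_option maxRecDepth 100000

/-- Hints for the leaves. -/
def hs15x2 : List (ℕ × Bool × ℕ) :=
  [(1, false, 17022140995484340291616), (2, false, 17022140995484340291616), (2, true,
  13444733510146121042016), (1, false, 15803609889286902580352), (3, false,
  17022140995484340291616), (1, false, 13518443929713989782592), (2, true,
  16948424982736284025920), (2, false, 14589544036290769587264), (3, false,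
  14698818462855612992576), (1, false, 15803608727074086359136), (3, false,
  15806850156828160987232), (3, false, 17022103804468297532544)]

theorem run15x2_0 : chkP 15 (fac 15 :: others 15) [0, 1, 10, 4, 0] 4 [(4, 1), (5, 10), (6, 4)] hs15x2
    9 8 0 = true := by
  decide +kernel

theorem run15x2_1 : chkP 15 (fac 15 :: others 15) [0, 1, 10, 4, 0] 4 [(4, 1), (5, 10), (6, 4)] hs15x2
    9 8 1 = true := by
  decide +kernel

theorem run15x2_2 : chkP 15 (fac 15 :: others 15) [0, 1, 10, 4, 0] 4 [(4, 1), (5, 10), (6, 4)] hs15x2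
    9 8 2 = true := by
  decide +kernel

theorem run15x2_3 : chkP 15 (fac 15 :: others 15) [0, 1, 10, 4, 0] 4 [(4, 1), (5, 10), (6, 4)] hs15x2
    9 8 3 = true := by
  decide +kernel

theorem run15x2_4 : chkP 15 (fac 15 :: others 15) [0, 1, 10, 4, 0] 4 [(4, 1), (5, 10), (6, 4)] hs15x2
    9 8 4 = true := by
  decide +kernel

theorem run15x2_5 : chkP 15 (fac 15 :: others 15) [0, 1, 10, 4, 0] 4 [(4, 1), (5, 10), (6, 4)] hs15x2
    9 8 5 = true := by
  decide +kernel

theorem run15x2_6 : chkP 15 (fac 15 :: others 15) [0, 1, 10, 4, 0] 4 [(4, 1), (5, 10), (6, 4)] hs15x2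
    9 8 6 = true := by
  decide +kernel

theorem run15x2_7 : chkP 15 (fac 15 :: others 15) [0, 1, 10, 4, 0] 4 [(4, 1), (5, 10), (6, 4)] hs15x2
    9 8 7 = true := by
  decide +kernel

theorem run15x2 : chkS 15 (fac 15 :: others 15) [0, 1, 10, 4, 0] 4 [(4, 1), (5, 10), (6, 4)] hs15x2 = true :=
  chkS_of (d := 9) (n := 8) (by decide +kernel) fun i hi => by
    interval_cases i
    exacts [run15x2_0, run15x2_1, run15x2_2, run15x2_3, run15x2_4, run15x2_5, run15x2_6, run15x2_7]

end Pool.Agent.MP_2ab689_gt.Fam.En
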