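import Pool.Agent.MP_2ab689_gt.Fam.En.Par

/-!
Runs of the enumeration of triangulations.
-/

namespace Pool.Agent.MP_2ab689_gt.Fam.En

set_option maxRecDepth 100000

/-- Hints for the leaves. -/
def hs16x0 : List (ℕ × Bool × ℕ) :=
  [(0, false, 582451845083477525433408), (0, false, 582413804267005682059296), (1, true,
  469261145044990446281826), (1, false, 280325989539340191377508), (1, true,
  430300431696185144877121), (1, false, 505818015157726524810307), (1, true,
  391339718101089232788518), (1, false, 466865372013169302872098), (1, false,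
  427941551905361816198337), (1, true, 352379004505993320477893), (1, true,
  313381397424096461303972), (1, false, 388980838310265903887526), (1, true,
  274428970452314910698627), (1, false, 350020124715169998090373)]

theorem run16x0_0 : chkP 16 (fac 16 :: others 16) [0, 0, 12, 4, 0] 6 [(5, 12), (6, 4)] hs16x0
    9 10 0 = true := by
  decide +kernel

theorem run16x0_1 : chkP 16 (fac 16 :: others 16) [0, 0, 12, 4, 0] 6 [(5, 12), (6, 4)] hs16x0
    9 10 1 = true := by
  decide +kernel

theorem run16x0_2 : chkP 16 (fac 16 :: others 16) [0, 0, 12, 4, 0] 6 [(5, 12), (6, 4)] hs16x0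
    9 10 2 = true := by
  decide +kernel

theorem run16x0_3 : chkP 16 (fac 16 :: others 16) [0, 0, 12, 4, 0] 6 [(5, 12), (6, 4)] hs16x0
    9 10 3 = true := by
  decide +kernel

theorem run16x0_4 : chkP 16 (fac 16 :: others 16) [0, 0, 12, 4, 0] 6 [(5, 12), (6, 4)] hs16x0
    9 10 4 = true := by
  decide +kernel

theorem run16x0_5 : chkP 16 (fac 16 :: others 16) [0, 0, 12, 4, 0] 6 [(5, 12), (6, 4)] hs16x0
    9 10 5 = true := by
  decide +kernel

theorem run16x0_6 : chkP 16 (fac 16 :: others 16) [0, 0, 12, 4, 0] 6 [(5, 12), (6, 4)] hs16x0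
    9 10 6 = true := by
  decide +kernel

theorem run16x0_7 : chkP 16 (fac 16 :: others 16) [0, 0, 12, 4, 0] 6 [(5, 12), (6, 4)] hs16x0
    9 10 7 = true := by
  decide +kernel

theorem run16x0_8 : chkP 16 (fac 16 :: others 16) [0, 0, 12, 4, 0] 6 [(5, 12), (6, 4)] hs16x0
    9 10 8 = true := by
  decide +kernel

theorem run16x0_9 : chkP 16 (fac 16 :: others 16) [0, 0, 12, 4, 0] 6 [(5, 12), (6, 4)] hs16x0
    9 10 9 = true := by
  decide +kernel

theorem run16x0 : chkS 16 (fac 16 :: others 16) [0, 0, 12, 4, 0] 6 [(5, 12), (6, 4)] hs16x0 = true :=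
  chkS_of (d := 9) (n := 10) (by decide +kernel) fun i hi => by
    interval_cases i
    exacts [run16x0_0, run16x0_1, run16x0_2, run16x0_3, run16x0_4, run16x0_5, run16x0_6, run16x0_7, run16x0_8, run16x0_9]

end Pool.Agent.MP_2ab689_gt.Fam.En
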