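import Pool.Agent.MP_2ab689_gt.Fam.En.Tg

/-!
The invariant of the enumeration. The state is a table `m`: for `a, b < K` the entry `m a b` is
`0` (nothing known), `1` (adjacent) or `c + 2` (the face on the edge is `a b c`); row `K` counts
neighbours, row `K + 1` holds a parent, row `K + 2` counts the vertices of each degree.
-/

namespace Pool.Agent.MP_2ab689_gt.Fam.En

open Finset

variable {ι : Type} [Fintype ι] {F : ι → ι → ι → Prop} {dg : ι → ℕ}

/-- The number of known neighbours. -/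
def nbc (K : ℕ) (m : ℕ → ℕ → ℕ) (a : ℕ) : ℕ := ((range K).filter fun b => m a b ≠ 0).card

/-- The invariant. -/
structure Base (F : ι → ι → ι → Prop) (dg : ι → ℕ) (K : ℕ) (σ : ℕ → ι) (v k : ℕ)
    (m : ℕ → ℕ → ℕ) : Prop where
  kK : k ≤ K
  inj : ∀ a < k, ∀ b < k, σ a = σ b → a = b
  c1 : ∀ a < K, ∀ b < K, m a b ≠ 0 → a < k ∧ b < k ∧ Ad F (σ a) (σ b) ∧ m b a ≠ 0
  c2 : ∀ a < K, ∀ b < K, ∀ c, m a b = c + 2 → c < k ∧ F (σ a) (σ b) (σ c) ∧ m b c = a + 2
  u : ∀ a < k, m K a + dg (σ a) = 8 + nbc K m a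
  z : ∀ a < K, k ≤ a → m K a = 0 ∧ m (K + 1) a = 0
  p : ∀ a < k, v < a → m (K + 1) a < k ∧ Ad F (σ a) (σ (m (K + 1) a))
  cnt : ∀ d < K, m (K + 2) d ≤ ((range k).filter fun a => dg (σ a) = d).card
  cls : ∀ a < v, ∀ w, Ad F (σ a) w → ∃ b < k, σ b = w ∧ 2 ≤ m a b

variable {K v k : ℕ} {σ : ℕ → ι} {m m' : ℕ → ℕ → ℕ}

/-- Known neighbours together with true neighbours are at most the degree. -/
theorem Base.nb_le (T : Tg F dg) (B : Base F dg K σ v k m) (a : ℕ) (S : Finset ℕ)
    (hS : ∀ b ∈ S, b < k ∧ Ad F (σ a) (σ b)) : S.card ≤ dg (σ a) := by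
  classical
  rw [T.deg]
  refine card_le_card_of_injOn σ (fun b hb => ?_) fun b hb c hc e =>
    B.inj _ (hS b hb).1 _ (hS c hc).1 e
  simpa using (hS b hb).2

theorem Base.room (T : Tg F dg) (B : Base F dg K σ v k m) {p q : ℕ} (hp : p < k) (hq : q < k)
    (h : Ad F (σ p) (σ q)) (h0 : m p q = 0) : m K p < 8 := by
  have h1 := B.nb_le T p (insert q ((range K).filter fun b => m p b ≠ 0)) fun b hb => by
    rcases mem_insert.mp hb with rfl | hb
    · exact ⟨hq, h⟩
    · obtain ⟨h1, h2⟩ := mem_filter.mp hb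
      obtain ⟨-, a2, a3, -⟩ := B.c1 p (hp.trans_le B.kK) b (mem_range.mp h1) h2
      exact ⟨a2, a3⟩
  rw [card_insert_of_notMem (by simp [h0])] at h1
  have := B.u p hp
  unfold nbc at this
  omega

theorem Base.full (T : Tg F dg) (B : Base F dg K σ v k m) {a : ℕ} (ha : a < k)
    (h : ∀ w, Ad F (σ a) w → ∃ b < k, σ b = w ∧ 2 ≤ m a b) : m K a = 8 := by
  classical
  have h1 := B.nb_le T a ((range K).filter fun b => m a b ≠ 0) fun b hb => by
    obtain ⟨h1, h2⟩ := mem_filter.mp hb
    obtain ⟨-, a2, a3, -⟩ := B.c1 a (ha.trans_le B.kK) b (mem_range.mp h1) h2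
    exact ⟨a2, a3⟩
  have h2 : dg (σ a) ≤ ((range K).filter fun b => m a b ≠ 0).card := by
    rw [T.deg]
    refine (card_le_card fun w hw => ?_).trans (card_image_le (f := σ))
    obtain ⟨b, b1, b2, b3⟩ := h w (by simpa using hw)
    exact mem_image.mpr ⟨b, mem_filter.mpr ⟨mem_range.mpr (b1.trans_le B.kK), by omega⟩, b2⟩
  have := B.u a ha
  unfold nbc at this
  omega

/-- A new edge. -/
theorem Base.edge (T : Tg F dg) (B : Base F dg K σ v k m) {p q : ℕ} (hp : p < k) (hq : q < k)
    (h : Ad F (σ p) (σ q)) (h0 : m p q = 0)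
    (hm : ∀ a, ∀ b < K, m' a b = if (a = p ∧ b = q) ∨ (a = q ∧ b = p) ∨ (a = K ∧ b = p) ∨
      (a = K ∧ b = q) then m a b + 1 else m a b) : Base F dg K σ v k m' := by
  have kK := B.kK
  have hpq : p ≠ q := fun e => by
    obtain ⟨_, h⟩ := h
    exact T.ne h (by rw [e])
  have h1 : m q p = 0 := by
    by_contra hn
    exact (B.c1 q (by omega) p (by omega) hn).2.2.2 h0
  have n0 : ∀ a < K, a ≠ p → a ≠ q → nbc K m' a = nbc K m a := fun a ha a1 a2 => by
    unfold nbc
    refine congrArg _ (filter_congr fun b hb => ?_)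
    rw [hm a b (mem_range.mp hb), if_neg (by omega)]
  have n1 : ∀ {p q : ℕ}, p < K → q < K → m p q = 0 →
      (∀ b < K, m' p b = if b = q then m p b + 1 else m p b) → nbc K m' p = nbc K m p + 1 := by
    intro p q hp hq h0 hm
    unfold nbc
    rw [← card_insert_of_notMem (a := q) (by simp [h0])]
    refine congrArg _ (Finset.ext fun b => ?_)
    simp only [mem_filter, mem_range, mem_insert]
    by_cases hb : b < K
    · rw [hm b hb]
      split_ifs <;> omega
    · omega
  refine ⟨kK, B.inj, fun a ha b hb => ?_, fun a ha b hb c => ?_, fun a ha => ?_,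
    fun a ha h => ?_, fun a ha h => ?_, fun d hd => ?_, fun a ha w hw => ?_⟩
  · rw [hm a b hb, hm b a ha]
    by_cases c : (a = p ∧ b = q) ∨ (a = q ∧ b = p)
    · intro _
      rw [if_pos (by omega)]
      rcases c with ⟨rfl, rfl⟩ | ⟨rfl, rfl⟩
      · exact ⟨hp, hq, h, by omega⟩
      · exact ⟨hq, hp, T.symm h, by omega⟩
    · rw [if_neg (by omega), if_neg (by omega)]
      exact B.c1 a ha b hb
  · rw [hm a b hb]
    split_ifs with c1
    · intro e
      rcases c1 with ⟨rfl, rfl⟩ | ⟨rfl, rfl⟩ | c1 | c1 <;> omega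
    · intro e
      obtain ⟨a1, a2, a3⟩ := B.c2 a ha b hb c e
      refine ⟨a1, a2, ?_⟩
      rw [hm b c (by omega), if_neg, a3]
      rintro (⟨rfl, rfl⟩ | ⟨rfl, rfl⟩ | c1 | c1) <;> omega
  · have := B.u a ha
    rw [hm K a (by omega)]
    by_cases a1 : a = p
    · subst a1
      rw [n1 (by omega) (by omega) h0 fun b hb => by
        rw [hm a b hb]; exact if_congr (by omega) rfl rfl, if_pos (by omega)]
      omega
    by_cases a2 : a = q
    · subst a2
      rw [n1 (by omega) (by omega) h1 fun b hb => by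
        rw [hm a b hb]; exact if_congr (by omega) rfl rfl, if_pos (by omega)]
      omega
    rw [n0 a (by omega) a1 a2, if_neg (by omega), this]
  · rw [hm K a ha, hm (K + 1) a ha, if_neg (by omega), if_neg (by omega)]
    exact B.z a ha h
  · rw [hm (K + 1) a (by omega), if_neg (by omega)]
    exact B.p a ha h
  · rw [hm (K + 2) d hd, if_neg (by omega)]
    exact B.cnt d hd
  · obtain ⟨b, b1, b2, b3⟩ := B.cls a ha w hw
    refine ⟨b, b1, b2, ?_⟩
    rw [hm a b (by omega)]
    split_ifs <;> omega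

/-- A new face. -/
theorem Base.face (T : Tg F dg) (B : Base F dg K σ v k m) {a b c : ℕ} (ha : a < k) (hb : b < k)
    (hc : c < k) (h : F (σ a) (σ b) (σ c)) (h1 : m a b = 1) (h2 : m b c = 1) (h3 : m c a = 1)
    (hm : ∀ x, ∀ y < K, m' x y = if x = a ∧ y = b then c + 2 else if x = b ∧ y = c then a + 2
      else if x = c ∧ y = a then b + 2 else m x y) : Base F dg K σ v k m' := by
  have kK := B.kK
  have ab : a ≠ b := fun e => T.ne h (by rw [e])
  have bc : b ≠ c := fun e => T.ne (T.rot h) (by rw [e])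
  have ca : c ≠ a := fun e => T.ne (T.rot (T.rot h)) (by rw [e])
  have n0 : ∀ x, ∀ y < K, m' x y ≠ 0 ↔ m x y ≠ 0 := fun x y hy => by
    rw [hm x y hy]
    split_ifs with c1 c2 c3
    · rw [c1.1, c1.2]; omega
    · rw [c2.1, c2.2]; omega
    · rw [c3.1, c3.2]; omega
    · rfl
  have n2 : ∀ x, ∀ y < K, 2 ≤ m x y → m' x y = m x y := fun x y hy e => by
    rw [hm x y hy, if_neg, if_neg, if_neg] <;> (rintro ⟨rfl, rfl⟩; omega)
  refine ⟨kK, B.inj, fun x hx y hy => ?_, fun x hx y hy z => ?_, fun x hx => ?_,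
    fun x hx h => ?_, fun x hx h => ?_, fun d hd => ?_, fun x hx w hw => ?_⟩
  · rw [n0 x y hy, n0 y x hx]
    exact B.c1 x hx y hy
  · rw [hm x y hy]
    split_ifs with c1 c2 c3
    · intro e
      obtain ⟨rfl, rfl⟩ := c1
      obtain rfl : c = z := by omega
      exact ⟨hc, h, by rw [hm y c (by omega), if_neg (by omega), if_pos ⟨rfl, rfl⟩]⟩
    · intro e
      obtain ⟨rfl, rfl⟩ := c2
      obtain rfl : a = z := by omega
      exact ⟨ha, T.rot h, by
        rw [hm y a (by omega), if_neg (by omega), if_neg (by omega), if_pos ⟨rfl, rfl⟩]⟩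
    · intro e
      obtain ⟨rfl, rfl⟩ := c3
      obtain rfl : b = z := by omega
      exact ⟨hb, T.rot (T.rot h), by rw [hm y b (by omega), if_pos ⟨rfl, rfl⟩]⟩
    · intro e
      obtain ⟨a1, a2, a3⟩ := B.c2 x hx y hy z e
      exact ⟨a1, a2, by rw [n2 y z (by omega) (by omega), a3]⟩
  · have : nbc K m' x = nbc K m x := by
      unfold nbc
      exact congrArg _ (filter_congr fun y hy => n0 x y (mem_range.mp hy))
    rw [this, hm K x (by omega), if_neg (by omega), if_neg (by omega), if_neg (by omega)]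
    exact B.u x hx
  · rw [hm K x hx, hm (K + 1) x hx, if_neg (by omega), if_neg (by omega), if_neg (by omega),
      if_neg (by omega), if_neg (by omega), if_neg (by omega)]
    exact B.z x hx h
  · rw [hm (K + 1) x (by omega), if_neg (by omega), if_neg (by omega), if_neg (by omega)]
    exact B.p x hx h
  · rw [hm (K + 2) d hd, if_neg (by omega), if_neg (by omega), if_neg (by omega)]
    exact B.cnt d hd
  · obtain ⟨y, b1, b2, b3⟩ := B.cls x hx w hw
    exact ⟨y, b1, b2, by rw [n2 x y (by omega) b3]; exact b3⟩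

omit [Fintype ι] in
/-- A new vertex. -/
theorem Base.new (B : Base F dg K σ v k m) (hv : v ≤ k) (hk : k < K) {w : ι}
    (hw : ∀ a < k, σ a ≠ w) {q : ℕ} (hq : v < k → q < k ∧ Ad F w (σ q)) (h8 : dg w ≤ 8)
    (hm : ∀ x, ∀ y < K, m' x y = if x = K ∧ y = k then 8 - dg w else if x = K + 1 ∧ y = k then q
      else if x = K + 2 ∧ y = dg w then m x y + 1 else m x y) :
    Base F dg K (Function.update σ k w) v (k + 1) m' := by
  classical
  have s1 : ∀ a < k, Function.update σ k w a = σ a := fun a ha =>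
    Function.update_of_ne ha.ne _ _
  have s2 : Function.update σ k w k = w := Function.update_self ..
  have n0 : ∀ x < K, ∀ y < K, m' x y = m x y := fun x hx y hy => by
    rw [hm x y hy, if_neg (by omega), if_neg (by omega), if_neg (by omega)]
  have n1 : ∀ x < K, nbc K m' x = nbc K m x := fun x hx => by
    unfold nbc
    exact congrArg _ (filter_congr fun y hy => by rw [n0 x hx y (mem_range.mp hy)])
  refine ⟨hk, fun a ha b hb e => ?_, fun x hx y hy => ?_, fun x hx y hy z => ?_, fun x hx => ?_,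
    fun x hx h => ?_, fun x hx h => ?_, fun d hd => ?_, fun x hx u hu => ?_⟩
  · rcases Nat.lt_succ_iff_lt_or_eq.mp ha with ha | rfl <;>
      rcases Nat.lt_succ_iff_lt_or_eq.mp hb with hb | rfl
    · exact B.inj a ha b hb (by rwa [s1 a ha, s1 b hb] at e)
    · exact absurd (by rwa [s1 a ha, s2] at e) (hw a ha)
    · exact absurd (by rw [s1 b hb, s2] at e; exact e.symm) (hw b hb)
    · rfl
  · rw [n0 x hx y hy, n0 y hy x hx]
    intro e
    obtain ⟨a1, a2, a3, a4⟩ := B.c1 x hx y hy e
    exact ⟨by omega, by omega, by rwa [s1 x a1, s1 y a2], a4⟩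
  · rw [n0 x hx y hy]
    intro e
    obtain ⟨a1, a2, a3⟩ := B.c2 x hx y hy z e
    obtain ⟨b1, b2, -⟩ := B.c1 x hx y hy (by omega)
    exact ⟨by omega, by rwa [s1 x b1, s1 y b2, s1 z a1], by rw [n0 y hy z (by omega), a3]⟩
  · rw [n1 x (by omega), hm K x (by omega)]
    rcases Nat.lt_succ_iff_lt_or_eq.mp hx with hx | rfl
    · rw [if_neg (by omega), if_neg (by omega), if_neg (by omega), s1 x hx]
      exact B.u x hx
    · have : nbc K m x = 0 := by
        unfold nbc
        rw [card_eq_zero, filter_eq_empty_iff]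
        intro y hy e
        have := (B.c1 x hk y (mem_range.mp hy) e).1
        omega
      rw [if_pos ⟨rfl, rfl⟩, s2, this]
      omega
  · rw [hm K x hx, hm (K + 1) x hx, if_neg (by omega), if_neg (by omega), if_neg (by omega),
      if_neg (by omega), if_neg (by omega), if_neg (by omega)]
    exact B.z x hx (by omega)
  · rw [hm (K + 1) x (by omega), if_neg (by omega)]
    rcases Nat.lt_succ_iff_lt_or_eq.mp hx with hx | rfl
    · obtain ⟨a1, a2⟩ := B.p x hx h
      rw [if_neg (by omega), if_neg (by omega), s1 x hx, s1 _ a1]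
      exact ⟨by omega, a2⟩
    · obtain ⟨a1, a2⟩ := hq h
      rw [if_pos ⟨rfl, rfl⟩, s2, s1 q a1]
      exact ⟨by omega, a2⟩
  · have e : ((range k).filter fun a => dg (Function.update σ k w a) = d) =
        (range k).filter fun a => dg (σ a) = d :=
      filter_congr fun a ha => by rw [s1 a (mem_range.mp ha)]
    have := B.cnt d hd
    rw [hm (K + 2) d hd, if_neg (by omega), if_neg (by omega), range_add_one, filter_insert, s2, e]
    by_cases c : dg w = d
    · rw [if_pos ⟨rfl, c.symm⟩, if_pos c, card_insert_of_notMem (by simp)]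
      omega
    · rw [if_neg (fun h => c h.2.symm), if_neg c]
      exact this
  · obtain ⟨y, b1, b2, b3⟩ := B.cls x hx u (by rwa [s1 x (by omega)] at hu)
    exact ⟨y, by omega, by rwa [s1 y b1], by rwa [n0 x (by omega) y (by omega)]⟩

end Pool.Agent.MP_2ab689_gt.Fam.En
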