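import Pool.Agent.MP_2ab689_gt.Fam.En.Srch
import Pool.Agent.MP_2ab689_gt.Fam.Spec

/-!
Identification of the leaves of the search with listed triangulations.
-/

namespace Pool.Agent.MP_2ab689_gt.Fam.En

open Finset Big Real

/-- A digit in base 32. -/
def dq (q a : ℕ) : ℕ := Nat.mod (Nat.shiftRight q (Nat.mul 5 a)) 32

/-- The renamed face is recorded in the table. -/
def okF (K M q a b c : ℕ) : Bool := Nat.beq (cl K M (dq q a) (dq q b)) (Nat.add (dq q c) 2)

/-- The test at a leaf: one of the hints (type, orientation, renaming) fits. -/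
noncomputable def leafT (K : ℕ) (L : List (List Tri)) (hs : List (ℕ × Bool × ℕ)) (M : ℕ) : Bool :=
  not (allL hs fun h => not (allL (L.getD h.1 []) fun f =>
    cond h.2.1 (okF K M h.2.2 f.1 f.2.2 f.2.1) (okF K M h.2.2 f.1 f.2.1 f.2.2)))

/-- The hints are well formed. -/
noncomputable def okH (K n : ℕ) (hs : List (ℕ × Bool × ℕ)) : Bool :=
  allL hs fun h => and (Nat.blt h.1 n) (allLt K fun a => and (Nat.blt (dq h.2.2 a) K)
    (allLt a fun b => not (Nat.beq (dq h.2.2 a) (dq h.2.2 b))))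

/-- The list of faces has the right number of different directed edges. -/
def OkT (K : ℕ) (T : List Tri) : Prop := (∀ f ∈ T, f.1 < K ∧ f.2.1 < K ∧ f.2.2 < K) ∧
  ((rots T).map fun f => (f.1, f.2.1)).Nodup ∧ ((rots T).map fun f => (f.1, f.2.2)).Nodup ∧
  (rots T).length + 12 = 6 * K

/-- The faces `F` contain a renamed copy of `T` or of its mirror image. -/
def Has {ι : Type} (F : ι → ι → ι → Prop) (K : ℕ) (T : List Tri) : Prop :=
  ∃ σ : ℕ → ι, (∀ a < K, ∀ b < K, σ a = σ b → a = b) ∧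
    ((∀ f ∈ T, F (σ f.1) (σ f.2.1) (σ f.2.2)) ∨ ∀ f ∈ T, F (σ f.1) (σ f.2.2) (σ f.2.1))

theorem leafT_sound {ι : Type} (F : ι → ι → ι → Prop) {K : ℕ} {L : List (List Tri)}
    (hL : ∀ T ∈ L, OkT K T) {hs : List (ℕ × Bool × ℕ)} (h : okH K L.length hs = true) :
    Leaf F K (leafT K L hs) (∃ T ∈ L, Has F K T) := by
  intro σ M inj hF e
  rw [leafT, Bool.not_eq_true', ← Bool.not_eq_true, allL_iff] at e
  simp only [not_forall, Bool.not_eq_true', Bool.not_eq_false, allL_iff] at e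
  obtain ⟨x, hx, e⟩ := e
  have h := (allL_iff _ _).mp h x hx
  simp only [Bool.and_eq_true, Nat.blt_eq, allLt_iff, Bool.not_eq_true', beq_dec,
    decide_eq_false_iff_not] at h
  obtain ⟨h1, h2⟩ := h
  have hT : L.getD x.1 [] ∈ L := by
    rw [List.getD_eq_getElem?_getD, List.getElem?_eq_getElem h1, Option.getD_some]
    exact List.getElem_mem h1
  refine ⟨_, hT, fun a => σ (dq x.2.2 a), fun a ha b hb e => ?_, ?_⟩
  · have := inj _ (h2 a ha).1 _ (h2 b hb).1 e
    rcases lt_trichotomy a b with h | h | h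
    · exact absurd this.symm ((h2 b hb).2 a h)
    · exact h
    · exact absurd this ((h2 a ha).2 b h)
  · cases hm : x.2.1
    · refine Or.inl fun f hf => ?_
      have := e f hf
      obtain ⟨a1, a2, -⟩ := (hL _ hT).1 f hf
      rw [hm, cond_false, okF, Nat.beq_eq] at this
      exact hF _ (h2 _ a1).1 _ (h2 _ a2).1 _ this
    · refine Or.inr fun f hf => ?_
      have := e f hf
      obtain ⟨a1, -, a2⟩ := (hL _ hT).1 f hf
      rw [hm, cond_true, okF, Nat.beq_eq] at this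
      exact hF _ (h2 _ a1).1 _ (h2 _ a2).1 _ this

variable {K : ℕ} {Φ : Type} [Fintype Φ] (M : Mesh (Fin K) Φ)

theorem sum_flags {σ : ℕ → Fin K} (inj : ∀ a < K, ∀ b < K, σ a = σ b → a = b) {R : List Tri}
    (h1 : ∀ f ∈ R, f.1 < K ∧ f.2.1 < K ∧ Fc M (σ f.1) (σ f.2.1) (σ f.2.2))
    (h2 : (R.map fun f => (f.1, f.2.1)).Nodup) (h3 : R.length + 12 = 6 * K)
    (g : Fin K → Fin K → Fin K → ℝ) : (R.map fun f => g (σ f.1) (σ f.2.1) (σ f.2.2)).sum =
      ∑ d, g (M.tl d) (M.tl (M.φ d)) (M.tl (M.φ (M.φ d))) := by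
  classical
  have hne : Nonempty Φ := by
    rcases R with _ | ⟨f, R⟩
    · obtain ⟨d, -⟩ := M.exists_flag ⟨0, by simp at h3; omega⟩
      exact ⟨d⟩
    · obtain ⟨d, -⟩ := (h1 f (List.mem_cons_self ..)).2.2
      exact ⟨d⟩
  choose! fl k1 k2 k3 using fun f hf => (h1 f hf).2.2
  have nd : (R.map fl).Nodup := by
    refine (List.Nodup.of_map _ h2).map_on fun f hf f' hf' e => ?_
    refine List.inj_on_of_nodup_map h2 hf hf' (Prod.ext ?_ ?_)
    · exact inj _ (h1 f hf).1 _ (h1 f' hf').1 (by rw [← k1 f hf, e, k1 f' hf'])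
    · exact inj _ (h1 f hf).2.1 _ (h1 f' hf').2.1 (by rw [← k2 f hf, e, k2 f' hf'])
  have un : (R.map fl).toFinset = univ := by
    refine eq_univ_of_card _ (le_antisymm (card_le_univ _) ?_)
    have := M.card
    rw [Fintype.card_fin] at this
    rw [List.toFinset_card_of_nodup nd, List.length_map]
    omega
  rw [← un, List.sum_toFinset _ nd, List.map_map]
  exact congrArg _ (List.map_congr_left fun f hf => by
    simp only [Function.comp, k1 f hf, k2 f hf, k3 f hf])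

theorem sum_ang {σ : ℕ → Fin K} (inj : ∀ a < K, ∀ b < K, σ a = σ b → a = b) {R : List Tri}
    (h1 : ∀ f ∈ R, f.1 < K ∧ f.2.1 < K ∧ Fc M (σ f.1) (σ f.2.1) (σ f.2.2))
    (h2 : (R.map fun f => (f.1, f.2.1)).Nodup) (h3 : R.length + 12 = 6 * K) (l : ℕ → ℝ) :
    (R.map fun f => l f.1 * ang (M.p (σ f.1)) (M.p (σ f.2.1)) (M.p (σ f.2.2))).sum =
      2 * π * ∑ v ∈ range K, l v := by
  have bij : Function.Bijective fun v : Fin K => σ v :=
    Finite.injective_iff_bijective.mp fun a b e => Fin.ext (inj _ a.2 _ b.2 e)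
  obtain ⟨τ, t1, t2⟩ := Function.bijective_iff_has_inverse.mp bij
  have e := sum_flags M inj h1 h2 h3 fun a b c => l (τ a) * ang (M.p a) (M.p b) (M.p c)
  have e' : ∀ v, ∑ d ∈ M.star v, l (τ (M.tl d)) * ang (M.p (M.tl d)) (M.p (M.tl (M.φ d)))
      (M.p (M.tl (M.φ (M.φ d)))) = 2 * π * l (τ v) := fun v => by
    rw [← M.angle_sum v, sum_mul]
    exact sum_congr rfl fun d hd => by rw [← M.mem_star.mp hd, mul_comm]; rfl
  rw [← M.sum_star, sum_congr rfl fun v _ => e' v, ← mul_sum,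
    ← bij.sum_comp fun v => l (τ v), sum_congr rfl fun v _ => by rw [t1 v],
    Fin.sum_univ_eq_sum_range] at e
  rw [← e]
  exact congrArg _ (List.map_congr_left fun f hf => by rw [t1 ⟨f.1, (h1 f hf).1⟩])

theorem conf_of {T : List Tri} (hT : OkT K T) (h : Has (Fc M) K T) : ∃ (P : ℕ → V) (s : ℝ),
    Conf K T P M.vol ∧ s ^ 2 = 1 ∧ Set.range M.p = Set.range fun v : Fin K => s • P v := by
  obtain ⟨σ, inj, h⟩ := h
  obtain ⟨w, n1, n2, n3⟩ := hT
  have G := tri_mesh M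
  have rg : Set.range M.p = Set.range fun v : Fin K => M.p (σ v) :=
    ((Finite.injective_iff_surjective.mp fun a b e =>
      Fin.ext (inj _ a.2 _ b.2 e) : Function.Surjective fun v : Fin K => σ v).range_comp M.p).symm
  have ps : ∀ {a b c}, Fc M a b c → 0 < det3 (M.p a) (M.p b) (M.p c) := by
    rintro _ _ _ ⟨d, rfl, rfl, rfl⟩
    exact M.Dpos d
  rcases h with h | h
  · have h1 : ∀ f ∈ rots T, f.1 < K ∧ f.2.1 < K ∧ Fc M (σ f.1) (σ f.2.1) (σ f.2.2) := by
      intro g hg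
      obtain ⟨f, hf, rfl | rfl | rfl⟩ := mem_rots.mp hg
      · exact ⟨(w _ hf).1, (w _ hf).2.1, h _ hf⟩
      · exact ⟨(w _ hf).2.1, (w _ hf).2.2, G.rot (h _ hf)⟩
      · exact ⟨(w _ hf).2.2, (w _ hf).1, G.rot (G.rot (h _ hf))⟩
    refine ⟨fun v => M.p (σ v), 1, ⟨fun v _ => M.unit _, fun f hf => ps (h f hf),
      sum_ang M inj h1 n1 n3, ?_⟩, one_pow 2, by simpa using rg⟩
    have e := (sum_flags M inj h1 n1 n3 fun a b c => det3 (M.p a) (M.p b) (M.p c)).trans M.sum_D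
    rw [sum_rots, List.map_congr_left (g := fun f => 3 * det3 (M.p (σ f.1)) (M.p (σ f.2.1))
      (M.p (σ f.2.2))) fun f _ => by
        rw [det3_rot (M.p (σ f.1)), ← det3_rot (M.p (σ f.2.2))]; ring, List.sum_map_mul_left] at e
    unfold FF
    linarith
  · have h1 : ∀ f ∈ (rots T).map fun f => (f.1, f.2.2, f.2.1),
        f.1 < K ∧ f.2.1 < K ∧ Fc M (σ f.1) (σ f.2.1) (σ f.2.2) := by
      intro g' hg'
      obtain ⟨g, hg, rfl⟩ := List.mem_map.mp hg'
      obtain ⟨f, hf, rfl | rfl | rfl⟩ := mem_rots.mp hg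
      · exact ⟨(w _ hf).1, (w _ hf).2.2, h _ hf⟩
      · exact ⟨(w _ hf).2.1, (w _ hf).1, G.rot (G.rot (h _ hf))⟩
      · exact ⟨(w _ hf).2.2, (w _ hf).2.1, G.rot (h _ hf)⟩
    have n1' : (((rots T).map fun f => (f.1, f.2.2, f.2.1)).map fun f => (f.1, f.2.1)).Nodup := by
      rwa [List.map_map]
    have n3' : ((rots T).map fun f => (f.1, f.2.2, f.2.1)).length + 12 = 6 * K := by
      rwa [List.length_map]
    refine ⟨fun v => -M.p (σ v), -1, ⟨fun v _ => by rw [ip_neg, M.unit], fun f hf => ?_,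
      fun l => ?_, ?_⟩, by norm_num, by simpa using rg⟩
    · rw [det3_neg]
      exact ps (h f hf)
    · rw [← sum_ang M inj h1 n1' n3' l, List.map_map]
      exact congrArg _ (List.map_congr_left fun f _ => by simp only [Function.comp, ang_neg])
    · have e := (sum_flags M inj h1 n1' n3' fun a b c => det3 (M.p a) (M.p b) (M.p c)).trans
        M.sum_D
      rw [List.map_map, sum_rots, List.map_congr_left (g := fun f => 3 * det3 (-M.p (σ f.1))
        (-M.p (σ f.2.1)) (-M.p (σ f.2.2))) fun f _ => by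
          simp only [Function.comp]
          rw [det3_neg, det3_rot (M.p (σ f.1)), ← det3_rot (M.p (σ f.2.1))]; ring,
        List.sum_map_mul_left] at e
      unfold FF
      linarith

/-- The check for one degree sequence `n`, with root degree `r`. -/
noncomputable def chkS (K : ℕ) (L : List (List Tri)) (n : List ℕ) (r : ℕ) (ds : List (ℕ × ℕ))
    (hs : List (ℕ × Bool × ℕ)) : Bool :=
  and (decide (3 ≤ r ∧ r ≤ 7 ∧ 0 < n.getD (r - 3) 0 ∧
    ∀ d ∈ [3, 4, 5, 6, 7], n.getD (d - 3) 0 = 0 ∨ (d, n.getD (d - 3) 0) ∈ ds))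
    (and (okH K L.length hs) (root K [(r, n.getD (r - 3) 0)] ds (leafT K L hs) (6 * K)))

theorem chkS_sound (h9 : 9 ≤ K) (h30 : K ≤ 30) {L : List (List Tri)} (hL : ∀ T ∈ L, OkT K T)
    (hd : ∀ v, 3 ≤ M.deg v ∧ M.deg v ≤ 7) {r : ℕ} {ds : List (ℕ × ℕ)} {hs : List (ℕ × Bool × ℕ)}
    {n : List ℕ} (hn : ([3, 4, 5, 6, 7].map fun d => (univ.filter fun v => M.deg v = d).card) = n)
    (h : chkS K L n r ds hs = true) : ∃ T ∈ L, Has (Fc M) K T := by
  rw [chkS, Bool.and_eq_true, Bool.and_eq_true, decide_eq_true_iff] at h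
  obtain ⟨⟨r1, r2, r3, h1⟩, h2, h3⟩ := h
  have e : ∀ d, 3 ≤ d → d ≤ 7 → n.getD (d - 3) 0 = (univ.filter fun v => M.deg v = d).card := by
    intro d d1 d2
    subst hn
    interval_cases d <;> rfl
  rw [e r r1 r2] at r3 h3
  obtain ⟨u, hu⟩ := card_pos.mp r3
  refine root_sound (tri_mesh M) (Fintype.card_fin K) h9 h30 (fun w => ?_) (u := u)
    ⟨_, List.mem_singleton_self _, (mem_filter.mp hu).2, by omega, le_rfl⟩
    (leafT_sound _ hL h2) h3
  obtain ⟨d1, d2⟩ := hd w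
  have := h1 (M.deg w) (by simp only [List.mem_cons, List.not_mem_nil]; omega)
  rw [e _ d1 d2] at this
  exact ⟨_, this.resolve_left (card_pos.mpr ⟨w, by simp⟩).ne', rfl, by omega, le_rfl⟩

end Pool.Agent.MP_2ab689_gt.Fam.En
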