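import Pool.Agent.MP_2ab689_gt.Fam.En.Leaf

/-!
Splitting the enumeration of triangulations into parts.
-/

namespace Pool.Agent.MP_2ab689_gt.Fam.En

/-- If all `a i` with `i < n` are true then so is `b`. -/
def Imp (n : ℕ) (a : ℕ → Bool) (b : Bool) : Prop := (∀ i < n, a i = true) → b = true

theorem Imp.const {n : ℕ} (hn : 0 < n) (b : Bool) : Imp n (fun _ => b) b := fun h => h 0 hn

theorem Imp.or {n : ℕ} {a : ℕ → Bool} {b : Bool} (c : Bool) (h : Imp n a b) :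
    Imp n (fun i => or c (a i)) (or c b) := by
  cases c
  · exact h
  · exact fun _ => rfl

theorem Imp.and {n : ℕ} {a a' : ℕ → Bool} {b b' : Bool} (h : Imp n a b) (h' : Imp n a' b') :
    Imp n (fun i => and (a i) (a' i)) (and b b') := fun e => by
  rw [Bool.and_eq_true]
  exact ⟨h fun i hi => (Bool.and_eq_true _ _ ▸ e i hi).1,
    h' fun i hi => (Bool.and_eq_true _ _ ▸ e i hi).2⟩

theorem Imp.cond {n : ℕ} {a a' : ℕ → Bool} {b b' : Bool} (c : Bool) (h : Imp n a b)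
    (h' : Imp n a' b') : Imp n (fun i => cond c (a i) (a' i)) (cond c b b') := by
  cases c
  · exact h'
  · exact h

theorem Imp.force {n : ℕ} {a : ℕ → ℕ → Bool} {b : ℕ → Bool} (x : ℕ)
    (h : ∀ y, Imp n (fun i => a i y) (b y)) : Imp n (fun i => force x (a i)) (force x b) := by
  simp only [force_eq]
  exact h x

theorem Imp.allL {n : ℕ} {α : Type} (L : List α) {a : ℕ → α → Bool} {b : α → Bool}
    (h : ∀ y, Imp n (fun i => a i y) (b y)) : Imp n (fun i => allL L (a i)) (allL L b) :=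
  fun e => (allL_iff _ _).mpr fun y hy => h y fun i hi => (allL_iff _ _).mp (e i hi) y hy

theorem Imp.allLt {n : ℕ} (m : ℕ) {a : ℕ → ℕ → Bool} {b : ℕ → Bool}
    (h : ∀ y, Imp n (fun i => a i y) (b y)) : Imp n (fun i => allLt m (a i)) (allLt m b) :=
  fun e => (allLt_iff _ _).mpr fun y hy => h y fun i hi => (allLt_iff _ _).mp (e i hi) y hy

variable {n : ℕ}

theorem addE_imp (K M p q : ℕ) {a : ℕ → ℕ → Bool} {b : ℕ → Bool}
    (h : ∀ y, Imp n (fun i => a i y) (b y)) :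
    Imp n (fun i => addE K M p q (a i)) (addE K M p q b) :=
  Imp.cond _ (Imp.or _ (Imp.or _ (Imp.force _ h))) (h M)

theorem newV_imp (K : ℕ) (ds : List (ℕ × ℕ)) (M k q : ℕ) {a : ℕ → ℕ → Bool} {b : ℕ → Bool}
    (h : ∀ y, Imp n (fun i => a i y) (b y)) :
    Imp n (fun i => newV K ds M k q (a i)) (newV K ds M k q b) :=
  Imp.allL _ fun _ => Imp.or _ (Imp.force _ h)

theorem tr_imp (K v x M y : ℕ) {a : ℕ → ℕ → ℕ → Bool} {b : ℕ → ℕ → Bool}
    (h : ∀ y z, Imp n (fun i => a i y z) (b y z)) :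
    Imp n (fun i => tr K (a i) v x M y) (tr K b v x M y) :=
  Imp.or _ (Imp.or _ (Imp.or _ (addE_imp _ _ _ _ fun _ => addE_imp _ _ _ _ fun _ =>
    Imp.force _ (h y))))

theorem nx_imp (hn : 0 < n) (K : ℕ) (leaf : ℕ → Bool) {a : ℕ → ℕ → ℕ → ℕ → ℕ → ℕ → Bool}
    {b : ℕ → ℕ → ℕ → ℕ → ℕ → Bool}
    (h : ∀ v x0 x k M, Imp n (fun i => a i v x0 x k M) (b v x0 x k M)) (v x0 k y M : ℕ) :
    Imp n (fun i => nx K leaf (a i) v x0 k y M) (nx K leaf b v x0 k y M) :=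
  Imp.cond _ (Imp.or _ (Imp.force _ fun _ => Imp.cond _ (Imp.const hn _)
    (Imp.force _ fun _ => addE_imp _ _ _ _ (h _ _ _ _)))) (h _ _ _ _ _)

theorem stp_imp (hn : 0 < n) (K : ℕ) (ds : List (ℕ × ℕ)) (leaf : ℕ → Bool)
    {a : ℕ → ℕ → ℕ → ℕ → ℕ → ℕ → Bool} {b : ℕ → ℕ → ℕ → ℕ → ℕ → Bool}
    (h : ∀ v x0 x k M, Imp n (fun i => a i v x0 x k M) (b v x0 x k M)) (v x0 x k M : ℕ) :
    Imp n (fun i => stp K ds leaf (a i) v x0 x k M) (stp K ds leaf b v x0 x k M) :=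
  Imp.force _ fun _ => Imp.cond _ (Imp.force _ fun _ => nx_imp hn K leaf h _ _ _ _ _)
    (Imp.and (Imp.allLt _ fun _ => Imp.force _ fun _ =>
      tr_imp _ _ _ _ _ (nx_imp hn K leaf h _ _ _))
    (Imp.or _ (Imp.force _ fun _ => newV_imp _ _ _ _ _ fun _ =>
      tr_imp _ _ _ _ _ (nx_imp hn K leaf h _ _ _))))

/-- The first `d` steps of the search, followed by `fr`. -/
noncomputable def goD (K : ℕ) (ds : List (ℕ × ℕ)) (leaf : ℕ → Bool)
    (fr : ℕ → ℕ → ℕ → ℕ → ℕ → Bool) (d : ℕ) : ℕ → ℕ → ℕ → ℕ → ℕ → Bool :=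
  Nat.rec fr (fun _ rec => stp K ds leaf rec) d

/-- Only the states with hash value `i` modulo `n` are searched. -/
noncomputable def sel (n i : ℕ) (g : ℕ → ℕ → ℕ → ℕ → ℕ → Bool) (v x0 x k M : ℕ) : Bool :=
  cond (Nat.beq (Nat.mod M n) i) (g v x0 x k M) true

theorem goD_imp (hn : 0 < n) (K : ℕ) (ds : List (ℕ × ℕ)) (leaf : ℕ → Bool) (fuel d : ℕ) :
    ∀ v x0 x k M, Imp n (fun i => goD K ds leaf (sel n i (go K ds leaf fuel)) d v x0 x k M)
      (go K ds leaf (fuel + d) v x0 x k M) := by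
  induction d with
  | zero =>
    intro v x0 x k M e
    have := e (M % n) (Nat.mod_lt _ hn)
    change cond (Nat.beq (M % n) (M % n)) _ true = true at this
    rwa [Nat.beq_refl, cond_true] at this
  | succ d ih => exact stp_imp hn K ds leaf ih

/-- Part `i` of `n` of the check `chkS`, split at depth `d`. -/
noncomputable def chkP (K : ℕ) (L : List (List Tri)) (c : List ℕ) (r : ℕ) (ds : List (ℕ × ℕ))
    (hs : List (ℕ × Bool × ℕ)) (d n i : ℕ) : Bool :=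
  newV K [(r, c.getD (r - 3) 0)] 0 0 0 fun M0 => newV K ds M0 1 0 fun M1 => addE K M1 0 1
    (goD K ds (leafT K L hs) (sel n i (go K ds (leafT K L hs) (6 * K - d))) d 0 1 1 2)

/-- The part of the check `chkS` without search. -/
noncomputable def chk0 (K : ℕ) (L : List (List Tri)) (c : List ℕ) (r : ℕ) (ds : List (ℕ × ℕ))
    (hs : List (ℕ × Bool × ℕ)) (d n : ℕ) : Bool :=
  and (decide (0 < n ∧ d ≤ 6 * K)) (and (decide (3 ≤ r ∧ r ≤ 7 ∧ 0 < c.getD (r - 3) 0 ∧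
    ∀ d ∈ [3, 4, 5, 6, 7], c.getD (d - 3) 0 = 0 ∨ (d, c.getD (d - 3) 0) ∈ ds))
    (okH K L.length hs))

theorem chkS_of {K : ℕ} {L : List (List Tri)} {c : List ℕ} {r : ℕ} {ds : List (ℕ × ℕ)}
    {hs : List (ℕ × Bool × ℕ)} {d n : ℕ} (h0 : chk0 K L c r ds hs d n = true)
    (h : ∀ i < n, chkP K L c r ds hs d n i = true) : chkS K L c r ds hs = true := by
  rw [chk0, Bool.and_eq_true, Bool.and_eq_true, decide_eq_true_iff] at h0
  obtain ⟨⟨hn, hd⟩, h1, h2⟩ := h0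
  rw [chkS, Bool.and_eq_true, Bool.and_eq_true]
  refine ⟨h1, h2, ?_⟩
  rw [← Nat.sub_add_cancel hd]
  exact newV_imp _ _ _ _ _ (fun _ => newV_imp _ _ _ _ _ fun _ => addE_imp _ _ _ _
    (goD_imp hn K ds _ _ d _ _ _ _)) h

end Pool.Agent.MP_2ab689_gt.Fam.En
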