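import Pool.Agent.MP_2ab689_gt.Fam.En.Par

/-!
Runs of the enumeration of triangulations.
-/

namespace Pool.Agent.MP_2ab689_gt.Fam.En

set_option maxRecDepth 100000

theorem run9x0 : chkS 9 (fac 9 :: others 9) [0, 3, 6, 0, 0] 4 [(4, 3), (5, 6)]
    [(0, false, 7977032615968), (0, false, 8974573276224)] = true := by
  decide +kernel

theorem run10x0 : chkS 10 (fac 10 :: others 10) [0, 2, 8, 0, 0] 4 [(4, 2), (5, 8)]
    [(0, false, 325701533304864)] = true := by
  decide +kernel

theorem run11x0 : chkS 11 (fac 11 :: others 11) [0, 1, 10, 0, 0] 4 [(4, 1), (5, 10)] [] = true :=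
    by
  decide +kernel

theorem run11x1 : chkS 11 (fac 11 :: others 11) [0, 2, 8, 1, 0] 6 [(4, 2), (5, 8), (6, 1)]
    [(0, false, 10493884101756960), (0, false, 11515365871881280), (0, false, 8173985301860448)] =
    true := by
  decide +kernel

theorem run11x3 : chkS 11 (fac 11 :: others 11) [0, 3, 7, 0, 1] 7 [(4, 3), (5, 7), (7, 1)] [] =
    true := by
  decide +kernel

theorem run11x4 : chkS 11 (fac 11 :: others 11) [1, 0, 9, 1, 0] 3 [(3, 1), (5, 9), (6, 1)] [] =
    true := by
  decide +kernel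

theorem run13x0 : chkS 13 (fac 13 :: others 13) [0, 0, 12, 1, 0] 6 [(5, 12), (6, 1)] [] = true :=
    by
  decide +kernel

theorem run13x1 : chkS 13 (fac 13 :: others 13) [0, 1, 10, 2, 0] 4 [(4, 1), (5, 10), (6, 2)]
    [(0, false, 11939228674647166016), (0, false, 10786481956921149472)] = true := by
  decide +kernel

theorem run13x2 : chkS 13 (fac 13 :: others 13) [0, 1, 11, 0, 1] 4 [(4, 1), (5, 11), (7, 1)] [] =
    true := by
  decide +kernel

theorem run14x0 : chkS 14 (fac 14 :: others 14) [0, 0, 12, 2, 0] 6 [(5, 12), (6, 2)]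
    [(0, false, 417839791134481778720)] = true := by
  decide +kernel

/-- Hints for the leaves. -/
def hs14x1 : List (ℕ × Bool × ℕ) :=
  [(1, false, 493858305440582043680), (1, false, 493857143221524694144), (1, false,
  421255637380208135232), (1, false, 455881628950720450656)]

theorem run14x1_0 : chkP 14 (fac 14 :: others 14) [0, 1, 10, 3, 0] 4 [(4, 1), (5, 10), (6, 3)] hs14x1
    9 4 0 = true := by
  decide +kernel

theorem run14x1_1 : chkP 14 (fac 14 :: others 14) [0, 1, 10, 3, 0] 4 [(4, 1), (5, 10), (6, 3)] hs14x1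
    9 4 1 = true := by
  decide +kernel

theorem run14x1_2 : chkP 14 (fac 14 :: others 14) [0, 1, 10, 3, 0] 4 [(4, 1), (5, 10), (6, 3)] hs14x1
    9 4 2 = true := by
  decide +kernel

theorem run14x1_3 : chkP 14 (fac 14 :: others 14) [0, 1, 10, 3, 0] 4 [(4, 1), (5, 10), (6, 3)] hs14x1
    9 4 3 = true := by
  decide +kernel

theorem run14x1 : chkS 14 (fac 14 :: others 14) [0, 1, 10, 3, 0] 4 [(4, 1), (5, 10), (6, 3)] hs14x1 = true :=
  chkS_of (d := 9) (n := 4) (by decide +kernel) fun i hi => by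
    interval_cases i
    exacts [run14x1_0, run14x1_1, run14x1_2, run14x1_3]

end Pool.Agent.MP_2ab689_gt.Fam.En
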