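import Pool.Agent.MP_2ab689_gt.Fam.En.Inv

/-!
A verified enumeration of triangulations with prescribed degrees, by completing the stars of the
vertices one after the other.
-/

namespace Pool.Agent.MP_2ab689_gt.Fam.En

open Finset

/-- An entry of the table stored in `M`. -/
def cl (K M a b : ℕ) : ℕ :=
  Nat.mod (Nat.shiftRight M (Nat.add 64 (Nat.mul 5 (Nat.add (Nat.mul K a) b)))) 32

/-- Adds `c` to an entry. -/
def ad (K M a b c : ℕ) : ℕ :=
  Nat.add M (Nat.shiftLeft c (Nat.add 64 (Nat.mul 5 (Nat.add (Nat.mul K a) b))))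

/-- Changes the unused low bits of `N`, so that different states have different hash values. -/
def mx (M N : ℕ) : ℕ := Nat.xor N (Nat.mod M 18446744073709551557)

theorem cl_mx (K M N : ℕ) : cl K (mx M N) = cl K N := by
  funext a b
  change (N ^^^ M % 18446744073709551557) >>> (64 + _) % 32 = N >>> (64 + _) % 32
  rw [Nat.shiftRight_add, Nat.shiftRight_add N, Nat.shiftRight_xor_distrib,
    Nat.shiftRight_eq_zero (M % 18446744073709551557) 64 (by omega), Nat.xor_zero]

theorem dig_add (M c i j : ℕ) (h : M / 32 ^ i % 32 + c < 32) :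
    (M + c * 32 ^ i) / 32 ^ j % 32 = if j = i then M / 32 ^ j % 32 + c else M / 32 ^ j % 32 := by
  have e : (M + c * 32 ^ i) / 32 ^ i = M / 32 ^ i + c := Nat.add_mul_div_right _ _ (by positivity)
  rcases lt_trichotomy j i with hj | rfl | hj
  · obtain ⟨t, rfl⟩ := Nat.exists_eq_add_of_lt hj
    rw [if_neg hj.ne, show c * 32 ^ (j + t + 1) = c * 32 ^ t * 32 * 32 ^ j by ring,
      Nat.add_mul_div_right _ _ (by positivity), Nat.add_mul_mod_self_right]
  · rw [if_pos rfl, e]
    omega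
  · obtain ⟨t, rfl⟩ := Nat.exists_eq_add_of_lt hj
    rw [if_neg hj.ne', show 32 ^ (i + t + 1) = 32 ^ i * 32 * 32 ^ t by ring,
      ← Nat.div_div_eq_div_mul, ← Nat.div_div_eq_div_mul, ← Nat.div_div_eq_div_mul,
      ← Nat.div_div_eq_div_mul, e, show (M / 32 ^ i + c) / 32 = M / 32 ^ i / 32 by omega]

theorem cl_ad {K M a b c : ℕ} (hb : b < K) (h : cl K M a b + c < 32) (x : ℕ) {y : ℕ} (hy : y < K) :
    cl K (ad K M a b c) x y = if x = a ∧ y = b then cl K M x y + c else cl K M x y := by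
  have e : ∀ M a b, cl K M a b = M / 2 ^ 64 / 32 ^ (K * a + b) % 32 := fun M a b => by
    change M >>> (64 + 5 * (K * a + b)) % 32 = _
    rw [Nat.shiftRight_eq_div_pow, pow_add, pow_mul, Nat.div_div_eq_div_mul]
    rfl
  have e' : ad K M a b c / 2 ^ 64 = M / 2 ^ 64 + c * 32 ^ (K * a + b) := by
    change (M + c <<< (64 + 5 * (K * a + b))) / _ = _
    rw [Nat.shiftLeft_eq, pow_add, pow_mul, mul_comm (2 ^ 64), ← mul_assoc,
      Nat.add_mul_div_right _ _ (by positivity)]
    rfl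
  rw [e] at h
  rw [e, e, e', dig_add _ _ _ _ h]
  refine if_congr ⟨fun h => ?_, fun h => by rw [h.1, h.2]⟩ rfl rfl
  have h1 := congrArg (· / K) h
  have h2 := congrArg (· % K) h
  simp only [Nat.mul_add_div (by omega : 0 < K), Nat.div_eq_of_lt hb, Nat.div_eq_of_lt hy,
    Nat.mul_add_mod, Nat.mod_eq_of_lt hb, Nat.mod_eq_of_lt hy] at h1 h2
  omega

theorem cl_zero (K a b : ℕ) : cl K 0 a b = 0 := by
  change 0 >>> _ % 32 = 0
  rw [Nat.zero_shiftRight]

/-- Records the edge `p q`. -/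
noncomputable def addE (K M p q : ℕ) (cont : ℕ → Bool) : Bool :=
  cond (Nat.beq (cl K M p q) 0) (or (Nat.ble 8 (cl K M K p)) (or (Nat.ble 8 (cl K M K q))
    (force (mx M (ad K (ad K (ad K (ad K M p q 1) q p 1) K p 1) K q 1)) cont))) (cont M)

/-- Records the new vertex `k` with parent `q`, for every possible degree. -/
noncomputable def newV (K : ℕ) (ds : List (ℕ × ℕ)) (M k q : ℕ) (cont : ℕ → Bool) : Bool :=
  allL ds fun e => or (Nat.ble e.2 (cl K M (Nat.add K 2) e.1))
    (force (mx M (ad K (ad K (ad K M K k (Nat.sub 8 e.1)) (Nat.add K 1) k q) (Nat.add K 2) e.1 1))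
      cont)

/-- Tries the face `v x y`. -/
noncomputable def tr (K : ℕ) (nxt : ℕ → ℕ → Bool) (v x M y : ℕ) : Bool :=
  or (Nat.beq y x) (or (Nat.ble 2 (cl K M x y)) (or (Nat.ble 2 (cl K M y v))
    (addE K M y v fun M1 => addE K M1 x y fun M2 => force (mx M2 (ad K (ad K (ad K M2 v x
      (Nat.add y 1)) x y (Nat.add v 1)) y v (Nat.add x 1))) (nxt y))))

/-- Goes on after the face `v x y` is known. -/
noncomputable def nx (K : ℕ) (leaf : ℕ → Bool) (rec : ℕ → ℕ → ℕ → ℕ → ℕ → Bool)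
    (v x0 k y M : ℕ) : Bool :=
  cond (Nat.beq y x0) (or (Nat.blt (cl K M K v) 8) (force (Nat.add v 1) fun v' =>
    cond (Nat.beq v' k) (or (Nat.blt k K) (leaf M))
      (force (cl K M (Nat.add K 1) v') fun z => addE K M v' z (rec v' z z k)))) (rec v x0 y k M)

/-- One step of the search. -/
noncomputable def stp (K : ℕ) (ds : List (ℕ × ℕ)) (leaf : ℕ → Bool)
    (rec : ℕ → ℕ → ℕ → ℕ → ℕ → Bool) (v x0 x k M : ℕ) : Bool :=
  force (cl K M v x) fun e =>
    cond (Nat.ble 2 e) (force (Nat.sub e 2) fun y => nx K leaf rec v x0 k y M)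
      (and (allLt (Nat.sub k (Nat.add v 1)) fun j =>
        force (Nat.add (Nat.add v 1) j) (tr K (nx K leaf rec v x0 k) v x M))
      (or (Nat.ble K k) (force (Nat.add k 1) fun k' =>
        newV K ds M k v fun M' => tr K (nx K leaf rec v x0 k') v x M' k)))

/-- The search. -/
noncomputable def go (K : ℕ) (ds : List (ℕ × ℕ)) (leaf : ℕ → Bool) (fuel : ℕ) :
    ℕ → ℕ → ℕ → ℕ → ℕ → Bool :=
  Nat.rec (fun _ _ _ _ _ => false) (fun _ rec => stp K ds leaf rec) fuel

/-- The search from a root vertex whose degree is in `d0`. -/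
noncomputable def root (K : ℕ) (d0 ds : List (ℕ × ℕ)) (leaf : ℕ → Bool) (fuel : ℕ) : Bool :=
  newV K d0 0 0 0 fun M0 => newV K ds M0 1 0 fun M1 => addE K M1 0 1 (go K ds leaf fuel 0 1 1 2)

variable {ι : Type} [Fintype ι] {F : ι → ι → ι → Prop} {dg : ι → ℕ} {K v k M : ℕ} {σ : ℕ → ι}
  {Q : Prop}

/-- The table `m'` extends `m` by edges only. -/
def Ext (K : ℕ) (m m' : ℕ → ℕ → ℕ) : Prop :=
  ∀ a < K, ∀ b < K, m' a b = m a b ∨ (m a b = 0 ∧ m' a b = 1)

theorem addE_sound (T : Tg F dg) (B : Base F dg K σ v k (cl K M)) {p q : ℕ} (hp : p < k)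
    (hq : q < k) (h : Ad F (σ p) (σ q)) {cont : ℕ → Bool} (e : addE K M p q cont = true)
    (hc : ∀ M', Base F dg K σ v k (cl K M') → Ext K (cl K M) (cl K M') → cl K M' p q ≠ 0 →
      cont M' = true → Q) : Q := by
  have kK := B.kK
  unfold addE at e
  by_cases h0 : cl K M p q = 0
  · have hpq : p ≠ q := fun e => by
      obtain ⟨_, h⟩ := h
      exact T.ne h (by rw [e])
    have h1 : cl K M q p = 0 := by
      by_contra hn
      exact (B.c1 q (by omega) p (by omega) hn).2.2.2 h0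
    have r1 := B.room T hp hq h h0
    have r2 := B.room T hq hp (T.symm h) h1
    rw [h0, Nat.beq_refl, cond_true, force_eq, Bool.or_eq_true, Bool.or_eq_true, Nat.ble_eq,
      Nat.ble_eq] at e
    have e1 := cl_ad (M := M) (a := p) (b := q) (c := 1) (K := K) (by omega) (by omega)
    have e2 := cl_ad (M := ad K M p q 1) (a := q) (b := p) (c := 1) (K := K) (by omega)
      (by rw [e1 _ (by omega), if_neg (by omega)]; omega)
    have e3 := cl_ad (M := ad K (ad K M p q 1) q p 1) (a := K) (b := p) (c := 1) (K := K)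
      (by omega) (by rw [e2 _ (by omega), e1 _ (by omega), if_neg (by omega),
        if_neg (by omega)]; omega)
    have e4 := cl_ad (M := ad K (ad K (ad K M p q 1) q p 1) K p 1) (a := K) (b := q) (c := 1)
      (K := K) (by omega) (by rw [e3 _ (by omega), e2 _ (by omega), e1 _ (by omega),
        if_neg (by omega), if_neg (by omega), if_neg (by omega)]; omega)
    have hm : ∀ a, ∀ b < K, cl K (mx M (ad K (ad K (ad K (ad K M p q 1) q p 1) K p 1) K q 1))
        a b = if (a = p ∧ b = q) ∨ (a = q ∧ b = p) ∨ (a = K ∧ b = p) ∨ (a = K ∧ b = q)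
        then cl K M a b + 1 else cl K M a b := fun a b hb => by
      rw [cl_mx, e4 _ hb, e3 _ hb, e2 _ hb, e1 _ hb]
      split_ifs <;> omega
    refine hc _ (B.edge T hp hq h h0 hm) (fun a ha b hb => ?_) ?_
      ((e.resolve_left (by omega)).resolve_left (by omega))
    · rw [hm a b hb]
      split_ifs with c
      · rcases c with ⟨rfl, rfl⟩ | ⟨rfl, rfl⟩ | c | c <;> omega
      · exact Or.inl rfl
    · rw [hm p q (by omega), if_pos (Or.inl ⟨rfl, rfl⟩)]
      omega
  · rw [beq_dec, decide_eq_false h0, cond_false] at e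
    exact hc M B (fun _ _ _ _ => Or.inl rfl) h0 e

open Classical in
/-- The vertex `w` has one of the listed degrees, and the number of vertices of that degree is at
most the listed bound. -/
def Ok (dg : ι → ℕ) (ds : List (ℕ × ℕ)) (w : ι) : Prop :=
  ∃ e ∈ ds, dg w = e.1 ∧ e.1 ≤ 8 ∧ (univ.filter fun u => dg u = e.1).card ≤ e.2

theorem newV_sound (h9 : 9 ≤ K) (h30 : K ≤ 30) (B : Base F dg K σ v k (cl K M)) (hv : v ≤ k)
    (hk : k < K) {w : ι} (hw : ∀ a < k, σ a ≠ w) {q : ℕ} (hq' : q < K)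
    (hq : v < k → q < k ∧ Ad F w (σ q)) {ds : List (ℕ × ℕ)} (ok : Ok dg ds w) {cont : ℕ → Bool}
    (e : newV K ds M k q cont = true) :
    ∃ M', Base F dg K (Function.update σ k w) v (k + 1) (cl K M') ∧ (∀ a < K, ∀ b < K,
      cl K M' a b = cl K M a b) ∧ cont M' = true := by
  classical
  obtain ⟨⟨d, c⟩, he, rfl, h8, hc⟩ := ok
  have e := (allL_iff _ _).mp e _ he
  rw [force_eq, Bool.or_eq_true, Nat.ble_eq] at e
  simp only [Nat.add_eq, Nat.sub_eq] at e h8 hc
  have h1 := B.cnt (dg w) (by omega)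
  have h2 : ((range k).filter fun a => dg (σ a) = dg w).card ≤ k :=
    (card_filter_le _ _).trans (card_range k).le
  have h3 : ((range k).filter fun a => dg (σ a) = dg w).card < c := by
    refine lt_of_lt_of_le ?_ hc
    rw [← card_image_of_injOn (f := σ) fun a ha b hb => B.inj a (by
      simpa using (mem_filter.mp ha).1) b (by simpa using (mem_filter.mp hb).1)]
    refine card_lt_card ⟨fun u hu => ?_, fun h => ?_⟩
    · obtain ⟨a, ha, rfl⟩ := mem_image.mp hu
      simpa using (mem_filter.mp ha).2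
    · obtain ⟨a, ha, e⟩ := mem_image.mp (h (mem_filter.mpr ⟨mem_univ w, rfl⟩))
      exact hw a (mem_range.mp (mem_filter.mp ha).1) e
  obtain ⟨z1, z2⟩ := B.z k hk le_rfl
  have e1 := cl_ad (M := M) (a := K) (b := k) (c := 8 - dg w) (K := K) hk (by omega)
  have e2 := cl_ad (M := ad K M K k (8 - dg w)) (a := K + 1) (b := k) (c := q) (K := K) hk
    (by rw [e1 _ hk, if_neg (by omega)]; omega)
  have e3 := cl_ad (M := ad K (ad K M K k (8 - dg w)) (K + 1) k q) (a := K + 2) (b := dg w)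
    (c := 1) (K := K) (by omega) (by
      rw [e2 _ (by omega), e1 _ (by omega), if_neg (by omega), if_neg (by omega)]; omega)
  refine ⟨_, B.new hv hk hw hq h8 fun x y hy => ?_, fun a ha b hb => ?_,
    e.resolve_left (by omega)⟩
  · rw [cl_mx, e3 _ hy, e2 _ hy, e1 _ hy]
    by_cases c1 : x = K ∧ y = k
    · rw [if_neg (by omega), if_neg (by omega), if_pos c1, if_pos c1, c1.1, c1.2, z1, zero_add]
    by_cases c2 : x = K + 1 ∧ y = k
    · rw [if_neg (by omega), if_pos c2, if_neg c1, if_neg c1, if_pos c2, c2.1, c2.2, z2, zero_add]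
    simp only [if_neg c1, if_neg c2]
  · rw [cl_mx, e3 _ hb, e2 _ hb, e1 _ hb, if_neg (by omega), if_neg (by omega), if_neg (by omega)]

theorem tr_sound (T : Tg F dg) (h30 : K ≤ 30) (B : Base F dg K σ v k (cl K M)) {x y : ℕ}
    (hv : v < k) (hx : x < k) (hy : y < k) (h : F (σ v) (σ x) (σ y)) (h1 : cl K M v x = 1)
    {nxt : ℕ → ℕ → Bool} (e : tr K nxt v x M y = true)
    (hc : ∀ M', Base F dg K σ v k (cl K M') → cl K M' v x = y + 2 →
      (∀ b < K, 2 ≤ cl K M v b → cl K M' v b = cl K M v b) → nxt y M' = true → Q) : Q := by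
  have kK := B.kK
  have ab : v ≠ x := fun e => T.ne h (by rw [e])
  have bc : x ≠ y := fun e => T.ne (T.rot h) (by rw [e])
  have ca : y ≠ v := fun e => T.ne (T.rot (T.rot h)) (by rw [e])
  have g1 : cl K M x y < 2 := by
    by_contra hn
    obtain ⟨z, hz⟩ := Nat.exists_eq_add_of_le' (not_lt.mp hn)
    obtain ⟨a1, a2, a3⟩ := B.c2 x (by omega) y (by omega) z hz
    obtain rfl := B.inj _ a1 _ hv (T.uniq a2 (T.rot h))
    have := (B.c2 y (by omega) z (by omega) x a3).2.2
    omega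
  have g2 : cl K M y v < 2 := by
    by_contra hn
    obtain ⟨z, hz⟩ := Nat.exists_eq_add_of_le' (not_lt.mp hn)
    obtain ⟨a1, a2, a3⟩ := B.c2 y (by omega) v (by omega) z hz
    obtain rfl := B.inj _ a1 _ hx (T.uniq a2 (T.rot (T.rot h)))
    omega
  unfold tr at e
  rw [Bool.or_eq_true, Bool.or_eq_true, Bool.or_eq_true, Nat.ble_eq, Nat.ble_eq, Nat.beq_eq] at e
  refine addE_sound T B hy hv ⟨_, T.rot (T.rot h)⟩ (((e.resolve_left bc.symm).resolve_left
    (by omega)).resolve_left (by omega)) fun M1 B1 x1 n1 e => ?_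
  refine addE_sound T B1 hx hy ⟨_, T.rot h⟩ e fun M2 B2 x2 n2 e => ?_
  rw [force_eq] at e
  simp only [Nat.add_eq] at e
  have a1 : cl K M2 v x = 1 := by
    have := x1 v (by omega) x (by omega)
    have := x2 v (by omega) x (by omega)
    omega
  have a2 : cl K M2 x y = 1 := by
    have := x1 x (by omega) y (by omega)
    have := x2 x (by omega) y (by omega)
    omega
  have a3 : cl K M2 y v = 1 := by
    have := x1 y (by omega) v (by omega)
    have := x2 y (by omega) v (by omega)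
    omega
  have e1 := cl_ad (M := M2) (a := v) (b := x) (c := y + 1) (K := K) (by omega) (by omega)
  have e2 := cl_ad (M := ad K M2 v x (y + 1)) (a := x) (b := y) (c := v + 1) (K := K) (by omega)
    (by rw [e1 _ (by omega), if_neg (by omega)]; omega)
  have e3 := cl_ad (M := ad K (ad K M2 v x (y + 1)) x y (v + 1)) (a := y) (b := v) (c := x + 1)
    (K := K) (by omega) (by
      rw [e2 _ (by omega), e1 _ (by omega), if_neg (by omega), if_neg (by omega)]; omega)
  have hm : ∀ a, ∀ b < K, cl K (mx M2 (ad K (ad K (ad K M2 v x (y + 1)) x y (v + 1)) y v (x + 1)))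
      a b = if a = v ∧ b = x then y + 2 else if a = x ∧ b = y then v + 2
      else if a = y ∧ b = v then x + 2 else cl K M2 a b := fun a b hb => by
    rw [cl_mx, e3 _ hb, e2 _ hb, e1 _ hb]
    by_cases c1 : a = v ∧ b = x
    · rw [if_neg (by omega), if_neg (by omega), if_pos c1, if_pos c1, c1.1, c1.2, a1]; omega
    by_cases c2 : a = x ∧ b = y
    · rw [if_neg (by omega), if_pos c2, if_neg c1, if_neg c1, if_pos c2, c2.1, c2.2, a2]; omega
    by_cases c3 : a = y ∧ b = v
    · rw [if_pos c3, if_neg c2, if_neg c1, if_neg c1, if_neg c2, if_pos c3, c3.1, c3.2, a3]; omega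
    simp only [if_neg c1, if_neg c2, if_neg c3]
  refine hc _ (B2.face T hv hx hy h a1 a2 a3 hm) ?_ (fun b hb e => ?_) e
  · rw [hm v x (by omega), if_pos ⟨rfl, rfl⟩]
  · have := x1 v (by omega) b hb
    have := x2 v (by omega) b hb
    rw [hm v b hb, if_neg (by rintro ⟨-, rfl⟩; omega), if_neg (by omega), if_neg (by omega)]
    omega

/-- The part of the star of `v` that has been walked through. -/
def Walk (K : ℕ) (m : ℕ → ℕ → ℕ) (v x0 x : ℕ) : Prop :=
  ∃ S : Set ℕ, (x0 ∈ S ∨ x0 = x) ∧ ∀ y ∈ S, y < K ∧ ∃ z, m v y = z + 2 ∧ (z ∈ S ∨ z = x)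

/-- What is assumed about the test at the leaves. -/
def Leaf (F : ι → ι → ι → Prop) (K : ℕ) (leaf : ℕ → Bool) (Q : Prop) : Prop :=
  ∀ (σ : ℕ → ι) (M : ℕ), (∀ a < K, ∀ b < K, σ a = σ b → a = b) →
    (∀ a < K, ∀ b < K, ∀ c, cl K M a b = c + 2 → F (σ a) (σ b) (σ c)) → leaf M = true → Q

theorem nx_sound (T : Tg F dg) (hK : Fintype.card ι = K) {leaf : ℕ → Bool} (hl : Leaf F K leaf Q)
    {rec : ℕ → ℕ → ℕ → ℕ → ℕ → Bool}
    (ih : ∀ (σ : ℕ → ι) v x0 x k M, Base F dg K σ v k (cl K M) → v < k → x < k →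
      cl K M v x ≠ 0 → Walk K (cl K M) v x0 x → rec v x0 x k M = true → Q)
    (B : Base F dg K σ v k (cl K M)) {x0 x y : ℕ} (hv : v < k) (hx : x < k)
    (h : cl K M v x = y + 2) (W : Walk K (cl K M) v x0 x) (e : nx K leaf rec v x0 k y M = true) :
    Q := by
  classical
  have kK := B.kK
  obtain ⟨S, s1, s2⟩ := W
  obtain ⟨y1, y2, y3⟩ := B.c2 v (by omega) x (by omega) y h
  have s3 : ∀ b ∈ insert x S, b < K ∧ ∃ z, cl K M v b = z + 2 ∧ (z ∈ insert x S ∨ z = y) := by
    rintro b (rfl | hb)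
    · exact ⟨by omega, y, h, Or.inr rfl⟩
    · obtain ⟨b1, z, b2, b3⟩ := s2 b hb
      exact ⟨b1, z, b2, Or.inl b3.symm⟩
  unfold nx at e
  by_cases c : y = x0
  · subst c
    have cl1 : ∀ w, Ad F (σ v) w → ∃ b < k, σ b = w ∧ 2 ≤ cl K M v b := fun w hw => by
      obtain ⟨b, hb, rfl⟩ := T.cyc (σ v) (σ '' insert x S) ⟨_, x, Or.inl rfl, rfl⟩ (by
        rintro _ ⟨b, hb, rfl⟩
        obtain ⟨b1, z, b2, b3⟩ := s3 b hb
        refine ⟨_, ⟨z, ?_, rfl⟩, (B.c2 v (by omega) b b1 z b2).2.1⟩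
        rcases b3 with b3 | rfl
        · exact b3
        · exact s1.symm) w hw
      obtain ⟨b1, z, b2, -⟩ := s3 b hb
      exact ⟨b, (B.c1 v (by omega) b b1 (by omega)).2.1, rfl, by omega⟩
    have B' : Base F dg K σ (v + 1) k (cl K M) := ⟨kK, B.inj, B.c1, B.c2, B.u, B.z,
      fun a ha h => B.p a ha (by omega), B.cnt, fun a ha => by
        rcases Nat.lt_succ_iff_lt_or_eq.mp ha with ha | rfl
        · exact B.cls a ha
        · exact cl1⟩
    rw [Nat.beq_refl, cond_true, force_eq, Bool.or_eq_true, Nat.blt_eq, B.full T hv cl1] at e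
    have e := e.resolve_left (lt_irrefl _)
    simp only [Nat.add_eq] at e
    by_cases c : v + 1 = k
    · have all := T.conn (σ '' Set.Iio k) ⟨_, v, hv, rfl⟩ (by
        rintro _ ⟨a, ha, rfl⟩ w hw
        obtain ⟨b, b1, b2, -⟩ := B'.cls a (c ▸ ha) w hw
        exact ⟨b, b1, b2⟩)
      have : K ≤ k := by
        rw [← hK, ← card_univ, ← card_range k]
        refine (card_le_card fun w _ => ?_).trans (card_image_le (f := σ))
        obtain ⟨a, ha, rfl⟩ := all w
        exact mem_image_of_mem _ (mem_range.mpr ha)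
      rw [c, Nat.beq_refl, cond_true, Bool.or_eq_true, Nat.blt_eq] at e
      obtain rfl : k = K := by omega
      exact hl σ M B.inj (fun a ha b hb c h => (B.c2 a ha b hb c h).2.1) (e.resolve_left (by omega))
    · rw [beq_dec, decide_eq_false c, cond_false, force_eq] at e
      obtain ⟨p1, p2⟩ := B.p (v + 1) (by omega) (by omega)
      exact addE_sound T B' (by omega) p1 p2 e fun M' B1 _ n e =>
        ih σ _ _ _ _ _ B1 (by omega) p1 n ⟨∅, Or.inr rfl, fun _ h => h.elim⟩ e
  · rw [beq_dec, decide_eq_false c, cond_false] at e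
    have := (B.c2 x (by omega) y (by omega) v y3).2.2
    exact ih σ _ _ _ _ _ B hv y1 (B.c1 y (by omega) v (by omega) (by omega)).2.2.2
      ⟨insert x S, Or.inl s1.symm, s3⟩ e

theorem go_sound (T : Tg F dg) (hK : Fintype.card ι = K) (h9 : 9 ≤ K) (h30 : K ≤ 30)
    {ds : List (ℕ × ℕ)} (ok : ∀ w, Ok dg ds w) {leaf : ℕ → Bool} (hl : Leaf F K leaf Q)
    (fuel : ℕ) : ∀ (σ : ℕ → ι) v x0 x k M, Base F dg K σ v k (cl K M) → v < k → x < k →
      cl K M v x ≠ 0 → Walk K (cl K M) v x0 x → go K ds leaf fuel v x0 x k M = true → Q := by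
  induction fuel with
  | zero => intro σ v x0 x k M _ _ _ _ _ h; exact absurd h Bool.false_ne_true
  | succ fuel ih =>
    intro σ v x0 x k M B hv hx h0 W e
    have kK := B.kK
    change stp K ds leaf (go K ds leaf fuel) v x0 x k M = true at e
    rw [stp, force_eq] at e
    by_cases c : 2 ≤ cl K M v x
    · rw [Nat.ble_eq.mpr c, cond_true, force_eq] at e
      exact nx_sound T hK hl ih B hv hx (Nat.sub_add_cancel c).symm W e
    have h1 : cl K M v x = 1 := by omega
    have W' : ∀ M', (∀ b < K, 2 ≤ cl K M v b → cl K M' v b = cl K M v b) →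
        Walk K (cl K M') v x0 x := fun M' h => by
      obtain ⟨S, s1, s2⟩ := W
      refine ⟨S, s1, fun y hy => ?_⟩
      obtain ⟨y1, z, y2, y3⟩ := s2 y hy
      exact ⟨y1, z, by rw [h y y1 (by omega), y2], y3⟩
    rw [h1, show Nat.ble 2 1 = false from rfl, cond_false, Bool.and_eq_true, allLt_iff,
      Bool.or_eq_true, force_eq, Nat.ble_eq] at e
    simp only [force_eq, Nat.add_eq, Nat.sub_eq] at e
    obtain ⟨w, hw⟩ := (B.c1 v (by omega) x (by omega) h0).2.2.1
    by_cases c2 : ∃ y < k, σ y = w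
    · obtain ⟨y, hy, rfl⟩ := c2
      have hvy : v < y := by
        by_contra hn
        have hne : y ≠ v := fun e => T.ne (T.rot (T.rot hw)) (by rw [e])
        obtain ⟨b, b1, b2, b3⟩ := B.cls y (by omega) _ ⟨_, T.rot (T.rot hw)⟩
        obtain rfl := B.inj _ b1 _ hv b2
        obtain ⟨z, hz⟩ := Nat.exists_eq_add_of_le' b3
        obtain ⟨a1, a2, a3⟩ := B.c2 y (by omega) b (by omega) z hz
        obtain rfl := B.inj _ a1 _ hx (T.uniq a2 (T.rot (T.rot hw)))
        omega
      have := e.1 (y - (v + 1)) (by omega)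
      rw [show v + 1 + (y - (v + 1)) = y by omega] at this
      exact tr_sound T h30 B hv hx hy hw h1 this fun M' B' a1 a2 a3 =>
        nx_sound T hK hl ih B' hv hx a1 (W' M' a2) a3
    · have hn : ∀ a < k, σ a ≠ w := fun a ha e => c2 ⟨a, ha, e⟩
      have hk : k < K := by
        refine lt_of_le_of_ne kK fun e => ?_
        subst e
        exact c2 (hK ▸ surj_of_inj (hK ▸ B.inj) w)
      obtain ⟨M1, B1, a1, a2⟩ := newV_sound h9 h30 B hv.le hk hn (by omega)
        (fun _ => ⟨hv, _, T.rot (T.rot hw)⟩) (ok w) (e.2.resolve_left (by omega))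
      refine tr_sound T h30 B1 (by omega) (by omega) (Nat.lt_succ_self k) ?_
        (by rw [a1 v (by omega) x (by omega), h1]) a2 fun M' B' b1 b2 b3 =>
        nx_sound T hK hl ih B' (by omega) (by omega) b1 (W' M' fun b hb h => ?_) b3
      · rwa [Function.update_self, Function.update_of_ne hv.ne, Function.update_of_ne hx.ne]
      · rw [b2 b hb (by rwa [a1 v (by omega) b hb]), a1 v (by omega) b hb]

theorem root_sound (T : Tg F dg) (hK : Fintype.card ι = K) (h9 : 9 ≤ K) (h30 : K ≤ 30)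
    {d0 ds : List (ℕ × ℕ)} (ok : ∀ w, Ok dg ds w) {u : ι} (ok0 : Ok dg d0 u) {leaf : ℕ → Bool}
    (hl : Leaf F K leaf Q) {fuel : ℕ} (e : root K d0 ds leaf fuel = true) : Q := by
  obtain ⟨w, hw⟩ := T.ex u
  have B : Base F dg K (fun _ => u) 0 0 (cl K 0) := by
    refine ⟨by omega, ?_, ?_, ?_, ?_, ?_, ?_, ?_, ?_⟩ <;> simp [cl_zero]
  obtain ⟨M0, B0, -, e⟩ := newV_sound h9 h30 B le_rfl (by omega) (w := u) (by simp) (q := 0)
    (by omega) (by simp) ok0 e
  have s0 : Function.update (fun _ : ℕ => u) 0 u 0 = u := Function.update_self ..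
  obtain ⟨M1, B1, -, e⟩ := newV_sound h9 h30 B0 (by omega) (by omega) (w := w) (fun a ha => by
      obtain rfl : a = 0 := by omega
      obtain ⟨_, h⟩ := hw
      rw [s0]
      exact T.ne h) (q := 0) (by omega) (fun _ => ⟨by omega, by rw [s0]; exact T.symm hw⟩)
    (ok w) e
  refine addE_sound T B1 (p := 0) (q := 1) (by omega) (by omega) ?_ e fun M2 B2 _ n e =>
    go_sound T hK h9 h30 ok hl fuel _ _ _ _ _ _ B2 (by omega) (by omega) n
      ⟨∅, Or.inr rfl, fun _ h => h.elim⟩ e
  rwa [Function.update_of_ne (by omega), s0, Function.update_self]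

end Pool.Agent.MP_2ab689_gt.Fam.En
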