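import Pool.Agent.MP_2ab689_gt.T32.Euler

/-!
The combinatorial structure of a mesh: oriented faces given by their vertices.
-/

namespace Pool.Agent.MP_2ab689_gt.Fam.En

open Big

/-- The directed edge `a b` lies on a face. -/
def Ad {ι : Type} (F : ι → ι → ι → Prop) (a b : ι) : Prop := ∃ c, F a b c

open Classical in
/-- What the enumeration uses about the oriented faces `F` and the degrees `dg`. -/
structure Tg {ι : Type} [Fintype ι] (F : ι → ι → ι → Prop) (dg : ι → ℕ) : Prop where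
  rot : ∀ {a b c}, F a b c → F b c a
  ne : ∀ {a b c}, F a b c → a ≠ b
  uniq : ∀ {a b c c'}, F a b c → F a b c' → c = c'
  symm : ∀ {a b}, Ad F a b → Ad F b a
  ex : ∀ a, ∃ b, Ad F a b
  deg : ∀ a, dg a = (Finset.univ.filter fun b => Ad F a b).card
  cyc : ∀ (a : ι) (S : Set ι), S.Nonempty → (∀ b ∈ S, ∃ c ∈ S, F a b c) → ∀ b, Ad F a b → b ∈ S
  conn : ∀ W : Set ι, W.Nonempty → (∀ a ∈ W, ∀ b, Ad F a b → b ∈ W) → ∀ a, a ∈ W

variable {ι Φ : Type} [Fintype ι] [Fintype Φ] (M : Mesh ι Φ)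

/-- The oriented faces of a mesh. -/
def Fc (a b c : ι) : Prop := ∃ d, M.tl d = a ∧ M.tl (M.φ d) = b ∧ M.tl (M.φ (M.φ d)) = c

/-- A flag is determined by its first edge. -/
theorem flag_ext {d d' : Φ} (h1 : M.tl d' = M.tl d) (h2 : M.tl (M.φ d') = M.tl (M.φ d)) :
    d' = d := by
  have eA : M.A d' = M.A d := by rw [Mesh.A, h1, Mesh.A]
  have eB : M.B d' = M.B d := by rw [Mesh.B, h2, Mesh.B]
  have p1 := M.D_pos d
  have p2 := M.D_pos d'
  rw [Mesh.D] at p1 p2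
  rw [eA, eB] at p2
  obtain ⟨t, ht⟩ : ∃ t : ℝ, t = det3 (M.A d) (M.B d) (M.C d') / 2 := ⟨_, rfl⟩
  have t0 : 0 < t := by rw [ht]; linarith
  have key : ∀ (a b c e : V), det3 (a + b + t • c) b e = det3 a b e + t * det3 c b e ∧
      det3 a (a + b + t • c) e = det3 a b e + t * det3 a c e ∧
      det3 a b (a + b + t • c) = t * det3 a b c := by
    intro a b c e
    simp only [det3, Pi.add_apply, Pi.smul_apply, smul_eq_mul]
    refine ⟨by ring, by ring, by ring⟩
  obtain ⟨a1, a2, a3⟩ := key (M.A d) (M.B d) (M.C d) (M.C d)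
  obtain ⟨b1, b2, -⟩ := key (M.A d) (M.B d) (M.C d) (M.C d')
  have c1 := abs_le.mp (abs_det3_le_one (M.uC d) (M.uB d) (M.uC d'))
  have c2 := abs_le.mp (abs_det3_le_one (M.uA d) (M.uC d) (M.uC d'))
  rw [det3_self13] at a1
  rw [det3_self23] at a2
  have := M.disj d d' (M.A d + M.B d + t • M.C d)
    (by change 0 < det3 _ (M.B d) (M.C d); rw [a1]; linarith)
    (by change 0 < det3 (M.A d) _ (M.C d); rw [a2]; linarith)
    (by change 0 < det3 (M.A d) (M.B d) _; rw [a3]; positivity)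
    (by change 0 < det3 _ (M.B d') (M.C d'); rw [eB, b1]; nlinarith)
    (by change 0 < det3 (M.A d') _ (M.C d'); rw [eA, b2]; nlinarith)
    (by change 0 < det3 (M.A d') (M.B d') _; rw [eA, eB, a3]; positivity)
  rcases this with e | e | e
  · exact e
  · exact absurd (e ▸ h1) (M.tl_ne d)
  · exact absurd (e ▸ h1) (M.tl_ne' d)

theorem tri_mesh : Tg (Fc M) M.deg where
  rot := fun ⟨d, h1, h2, h3⟩ => ⟨M.φ d, h2, h3, by rw [M.φ3, h1]⟩
  ne := fun ⟨d, h1, h2, _⟩ => h1 ▸ h2 ▸ (M.tl_ne d).symm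
  uniq := fun ⟨d, h1, h2, h3⟩ ⟨d', k1, k2, k3⟩ => by
    rw [← h3, ← k3, flag_ext M (k1.trans h1.symm) (k2.trans h2.symm)]
  symm := fun ⟨_, d, h1, h2, _⟩ => ⟨_, M.s d, (M.tl_s d).trans h2, (M.tl_φs d).trans h1, rfl⟩
  ex := fun a => let ⟨d, h⟩ := M.exists_flag a; ⟨_, _, d, h, rfl, rfl⟩
  deg := fun a => by
    classical
    refine Finset.card_bij (fun d _ => M.tl (M.φ d)) (fun d hd => ?_) (fun d hd d' hd' e => ?_)
      fun b hb => ?_
    · exact Finset.mem_filter.mpr ⟨Finset.mem_univ _, _, d, M.mem_star.mp hd, rfl, rfl⟩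
    · exact flag_ext M ((M.mem_star.mp hd).trans (M.mem_star.mp hd').symm) e
    · obtain ⟨-, _, d, h1, h2, -⟩ := Finset.mem_filter.mp hb
      exact ⟨d, M.mem_star.mpr h1, h2⟩
  cyc := fun a S ⟨b0, hb0⟩ hS b ⟨_, d, h1, h2, _⟩ => by
    classical
    have := M.star_eq (v := a) (S := (M.star a).filter fun d => M.tl (M.φ d) ∈ S)
      (fun d hd => M.mem_star.mp (Finset.mem_filter.mp hd).1)
      (fun d hd => by
        obtain ⟨a1, a2⟩ := Finset.mem_filter.mp hd
        have a3 := M.mem_star.mp a1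
        obtain ⟨c, hc, d', k1, k2, k3⟩ := hS _ a2
        refine Finset.mem_filter.mpr ⟨M.mem_star.mpr ((M.tl_r d).trans a3), ?_⟩
        rw [M.tl_φr, ← flag_ext M (k1.trans a3.symm) k2, k3]
        exact hc)
      (let ⟨_, _, d, k1, k2, _⟩ := hS b0 hb0
       ⟨d, Finset.mem_filter.mpr ⟨M.mem_star.mpr k1, k2 ▸ hb0⟩⟩)
    have h3 := M.mem_star.mpr h1
    rw [← this] at h3
    exact h2 ▸ (Finset.mem_filter.mp h3).2
  conn := fun W ⟨w, hw⟩ hW a => by
    classical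
    obtain ⟨u, hu, hm⟩ := Finset.exists_max_image (Finset.univ.filter fun i => i ∈ W)
      (fun i => ip (M.p a) (M.p i)) ⟨w, Finset.mem_filter.mpr ⟨Finset.mem_univ _, hw⟩⟩
    have hu' := (Finset.mem_filter.mp hu).2
    by_contra hn
    have hne : a ≠ u := fun e => hn (e ▸ hu')
    obtain ⟨d, h1, h2⟩ := T32.up_nb M (M.p a) (v := u) (u := a) (by
      rw [M.unit]; exact ip_lt_one (M.unit a) (M.unit u) (M.inj.ne hne))
    have := hm _ (Finset.mem_filter.mpr ⟨Finset.mem_univ _, hW u hu' _ ⟨_, d, h1, rfl, rfl⟩⟩)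
    rw [Mesh.A, Mesh.B, h1] at h2
    linarith

theorem three_le_deg (v : ι) : 3 ≤ M.deg v := by
  have h := Finset.sum_lt_sum_of_nonempty (s := M.star v) (f := M.θ) (g := fun _ => Real.pi)
    (let ⟨d, h⟩ := M.exists_flag v; ⟨d, M.mem_star.mpr h⟩) fun d _ => M.θ_lt d
  rw [M.angle_sum, Finset.sum_const, nsmul_eq_mul, ← Mesh.deg] at h
  have : (2 : ℝ) < M.deg v := lt_of_mul_lt_mul_right h Real.pi_pos.le
  exact_mod_cast this

theorem sum_deg [Nonempty ι] : ∑ v, M.deg v + 12 = 6 * Fintype.card ι := by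
  have h1 := M.sum_star fun _ => (1 : ℝ)
  simp only [Finset.sum_const, nsmul_eq_mul, mul_one, Finset.card_univ] at h1
  have h2 := T32.euler M
  have h3 := M.card
  have h4 : ∑ v, M.deg v = Fintype.card Φ := by exact_mod_cast h1
  have h5 : 6 * Fintype.card ι ≤ Fintype.card Φ + 12 := by
    exact_mod_cast (by linarith : (6 : ℝ) * Fintype.card ι ≤ Fintype.card Φ + 12)
  omega

end Pool.Agent.MP_2ab689_gt.Fam.En
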